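import Pool.Agent.helper58.FQ.D3
import Pool.Agent.helper10.FQ.D2

/-!
# Decompositions of odd functions along any number of subgroups
-/

set_option autoImplicit false

namespace Pool.Agent.helper34.MD

open Finset Pool.Agent.helper76.LP

variable {G ι : Type*} [CommGroup G]

/-- invariance under a subgroup -/
def HInv (H : Subgroup G) (f : G → ℤ) : Prop := ∀ u ∈ H, ∀ x, f (u * x) = f x

/-- sum over the products of the `v j` -/
def PS (v : ι → G) : List ι → (G → ℤ) → ℤ
  | [], f => f 1
  | j :: L, f => PS v L (fun x => f x + f (v j * x))

/-- independence relative to a subgroup -/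
def ID (Γ : ι → Subgroup G) : List ι → Subgroup G → Prop
  | [], _ => True
  | i :: L, Δ => Disjoint (Γ i) (Pl Γ L ⊔ Δ) ∧ ID Γ L (Δ ⊔ Γ i)

lemma HInv.sup {H K : Subgroup G} {f : G → ℤ} (h1 : HInv H f) (h2 : HInv K f) :
    HInv (H ⊔ K) f := by
  intro u hu x
  obtain ⟨a, ha, b, hb, rfl⟩ := Subgroup.mem_sup.1 hu
  rw [mul_assoc, h1 a ha, h2 b hb]

lemma HInv.mono {H K : Subgroup G} {f : G → ℤ} (h1 : HInv K f) (h : H ≤ K) : HInv H f :=
  fun u hu x => h1 u (h hu) x

/-- half systems -/
lemma ND_half (H : Subgroup G) (v : G) (hv : v * v = 1) (h : v ∉ H) :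
    ∃ s : G → ℤ, HInv H s ∧ ∀ x, s (v * x) = 1 - s x := by
  classical
  let q : G → G ⧸ H := fun x => QuotientGroup.mk x
  let A : G → Prop := fun x => WellOrderingRel (q x) (q (v * x))
  have hq : ∀ x, q x ≠ q (v * x) := by
    intro x hx
    apply h
    have := QuotientGroup.eq.1 hx
    have h2 : x⁻¹ * (v * x) = v := by rw [mul_comm v x, inv_mul_cancel_left]
    rwa [h2] at this
  have hee : ∀ x, v * (v * x) = x := fun x => by rw [← mul_assoc, hv, one_mul]
  have key : ∀ u ∈ H, ∀ y, q (u * y) = q y := by
    intro u hu y
    apply QuotientGroup.eq.2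
    have : (u * y)⁻¹ * y = u⁻¹ := by
      rw [mul_comm u y, mul_inv_rev, mul_assoc, inv_mul_cancel, mul_one]
    rw [this]; exact H.inv_mem hu
  have hA1 : ∀ u ∈ H, ∀ x, A (u * x) ↔ A x := by
    intro u hu x
    show WellOrderingRel (q (u * x)) (q (v * (u * x))) ↔ WellOrderingRel (q x) (q (v * x))
    rw [key u hu x, mul_left_comm v u x, key u hu (v * x)]
  have hA2 : ∀ x, A (v * x) ↔ ¬ A x := by
    intro x
    show WellOrderingRel (q (v * x)) (q (v * (v * x))) ↔ ¬ WellOrderingRel (q x) (q (v * x))
    rw [hee x]
    constructor
    · intro h1 h2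
      exact asymm h1 h2
    · intro h1
      rcases trichotomous_of WellOrderingRel (q x) (q (v * x)) with h2 | h2 | h2
      · exact absurd h2 h1
      · exact absurd h2 (hq x)
      · exact h2
  refine ⟨fun x => if A x then 1 else 0, ?_, ?_⟩
  · intro u hu x
    simp only [hA1 u hu x]
  · intro x
    simp only [hA2 x]
    by_cases h1 : A x <;> simp [h1]

lemma PS_add (v : ι → G) (L : List ι) (f g : G → ℤ) :
    PS v L (fun x => f x + g x) = PS v L f + PS v L g := by
  induction L generalizing f g with
  | nil => rfl
  | cons j L ih =>
    simp only [PS]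
    rw [← ih]
    congr 1
    funext x
    ring

lemma PS_mul (v : ι → G) (L : List ι) (c : ℤ) (f : G → ℤ) :
    PS v L (fun x => c * f x) = c * PS v L f := by
  induction L generalizing f with
  | nil => rfl
  | cons j L ih =>
    simp only [PS]
    rw [← ih]
    congr 1
    funext x
    ring

lemma PS_zero (v : ι → G) (L : List ι) : PS v L (fun _ => 0) = 0 := by
  have := PS_mul v L 0 (fun _ => 0)
  simpa using this

lemma PS_list {κ : Type*} (v : ι → G) (L : List ι) (M : List κ) (N : κ → G → ℤ) :
    PS v L (fun x => (M.map (fun j => N j x)).sum) = (M.map (fun j => PS v L (N j))).sum := by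
  induction M with
  | nil => simpa using PS_zero v L
  | cons j M ih =>
    simp only [List.map_cons, List.sum_cons]
    rw [PS_add, ih]

/-- translation by an element -/
lemma PS_shift (v : ι → G) (hv2 : ∀ i, v i * v i = 1) (L : List ι) (j : ι) (hj : j ∈ L)
    (f : G → ℤ) : PS v L (fun x => f (v j * x)) = PS v L f := by
  induction L generalizing f with
  | nil => simp at hj
  | cons k L ih =>
    simp only [PS]
    rcases List.mem_cons.1 hj with h | h
    · subst h
      congr 1
      funext x
      rw [← mul_assoc, hv2, one_mul, add_comm]
    · rw [← ih h (fun x => f x + f (v k * x))]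
      congr 1
      funext x
      rw [mul_left_comm]

lemma PS_shift_prod (v : ι → G) (hv2 : ∀ i, v i * v i = 1) (L M : List ι) (hM : ∀ j ∈ M, j ∈ L)
    (f : G → ℤ) : PS v L (fun x => f ((M.map v).prod * x)) = PS v L f := by
  induction M generalizing f with
  | nil => simp
  | cons k M ih =>
    have h1 := ih (fun j hj => hM j (List.mem_cons_of_mem _ hj)) f
    have h2 := PS_shift v hv2 L k (hM k List.mem_cons_self)
      (fun x => f ((M.map v).prod * x))
    rw [← h1, ← h2]
    congr 1
    funext x
    rw [List.map_cons, List.prod_cons]
    congr 1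
    rw [mul_comm (v k), mul_assoc]

lemma PS_even (Γ : ι → Subgroup G) (v : ι → G) (hv : ∀ i, v i ∈ Γ i) (L : List ι) (j : ι)
    (hj : j ∈ L) (f : G → ℤ) (hf : HInv (Γ j) f) : Even (PS v L f) := by
  induction L generalizing f with
  | nil => simp at hj
  | cons k L ih =>
    simp only [PS]
    rcases List.mem_cons.1 hj with h | h
    · subst h
      have : (fun x => f x + f (v j * x)) = fun x => 2 * f x := by
        funext x
        rw [hf (v j) (hv j)]
        ring
      rw [this, PS_mul]
      exact even_two_mul _
    · refine ih h _ ?_
      intro u hu x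
      show f (u * x) + f (v k * (u * x)) = f x + f (v k * x)
      rw [hf u hu, mul_left_comm (v k) u x, hf u hu]

lemma le_Pl (Γ : ι → Subgroup G) (L : List ι) (i : ι) (hi : i ∈ L) : Γ i ≤ Pl Γ L :=
  NH_le_Pl Γ L i hi

lemma prod_mem_Pl (Γ : ι → Subgroup G) (v : ι → G) (hv : ∀ i, v i ∈ Γ i) (L : List ι) :
    (L.map v).prod ∈ Pl Γ L := by
  induction L with
  | nil => simp [Pl]
  | cons i L ih =>
    rw [List.map_cons, List.prod_cons, Pl]
    exact Subgroup.mul_mem_sup (hv i) ih

lemma prod_sq (v : ι → G) (hv2 : ∀ i, v i * v i = 1) (L : List ι) :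
    (L.map v).prod * (L.map v).prod = 1 := by
  induction L with
  | nil => simp
  | cons i L ih =>
    rw [List.map_cons, List.prod_cons]
    calc v i * (L.map v).prod * (v i * (L.map v).prod)
        = (v i * v i) * ((L.map v).prod * (L.map v).prod) := by
          simp only [mul_comm, mul_left_comm, mul_assoc]
      _ = 1 := by rw [hv2, ih, one_mul]

variable [DecidableEq ι]

lemma ID_disjoint (Γ : ι → Subgroup G) (L : List ι) (Δ : Subgroup G) (h : ID Γ L Δ) (k : ι)
    (hk : k ∈ L) : Disjoint (Γ k) (Pl Γ (L.erase k) ⊔ Δ) := by
  induction L generalizing Δ with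
  | nil => simp at hk
  | cons i L ih =>
    obtain ⟨h1, h2⟩ := h
    by_cases hki : k = i
    · subst hki
      rw [List.erase_cons_head]
      exact h1
    · have hk' : k ∈ L := (List.mem_cons.1 hk).resolve_left hki
      have h3 := ih (Δ ⊔ Γ i) h2 hk'
      rw [List.erase_cons_tail (by simpa using fun h => hki h.symm)]
      rw [Pl]
      have e : Γ i ⊔ Pl Γ (L.erase k) ⊔ Δ = Pl Γ (L.erase k) ⊔ (Δ ⊔ Γ i) := by
        rw [sup_comm (Γ i), sup_assoc, sup_comm (Γ i)]
      rw [e]
      exact h3

/-- the half system attached to `k` -/
lemma ND_halfk (Γ : ι → Subgroup G) (v : ι → G) (hv : ∀ i, v i ∈ Γ i) (hv2 : ∀ i, v i * v i = 1)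
    (L : List ι) (Δ : Subgroup G) (h : ID Γ L Δ) (k : ι) (hk : k ∈ L) (hk1 : v k ≠ 1) (w : G)
    (hw : w ∈ Δ) :
    ∃ s : G → ℤ, HInv (Pl Γ (L.erase k) ⊔ Δ) s ∧ ∀ x, s (w * (L.map v).prod * x) = 1 - s x := by
  obtain ⟨s, h1, h2⟩ := ND_half (Pl Γ (L.erase k) ⊔ Δ) (v k) (hv2 k)
    (fun h3 => hk1 (Subgroup.disjoint_def.1 (ID_disjoint Γ L Δ h k hk) (hv k) h3))
  refine ⟨s, h1, fun x => ?_⟩
  have e : w * (L.map v).prod * x = (((L.erase k).map v).prod * w) * (v k * x) := by
    rw [← List.prod_map_erase v hk]
    simp only [mul_comm, mul_left_comm, mul_assoc]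
  rw [e, h1 _ (Subgroup.mul_mem_sup (prod_mem_Pl Γ v hv _) hw), h2]

/-- the general decomposition theorem -/
theorem nd_gen (Γ : ι → Subgroup G) (v : ι → G) (hv : ∀ i, v i ∈ Γ i)
    (hv2 : ∀ i, v i * v i = 1) :
    ∀ (L : List ι) (i : ι), L ≠ [] → (i :: L).Nodup → (∀ j ∈ i :: L, v j ≠ 1) →
      ∀ (Δ : Subgroup G) (σ : ℤ), (σ = 1 ∨ σ = -1) → ID Γ (i :: L) Δ → Pl Γ (i :: L) ⊔ Δ = ⊤ →
      ∀ (f : G → ℤ) (N : ι → G → ℤ), (∀ x, f (((i :: L).map v).prod * x) = σ * f x) →
      (∀ j ∈ i :: L, HInv (Γ j) (N j) ∧ HInv Δ (N j)) →
      (∀ x, f x = ((i :: L).map (fun j => N j x)).sum) →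
      (Even (PS v L f) ∨ σ = (-1) ^ (L.length + 1)) →
      ∃ N' : ι → G → ℤ, (∀ j ∈ i :: L, HInv (Γ j) (N' j) ∧ HInv Δ (N' j)) ∧
        (∀ x, f x = ((i :: L).map (fun j => N' j x)).sum) ∧
        ∀ j ∈ i :: L, ∀ x, N' j (((i :: L).map v).prod * x) = σ * N' j x := by
  intro L
  induction L with
  | nil => intro i h; exact absurd rfl h
  | cons k L ih =>
    intro i _ hnd hne Δ σ hσ hID htop f N hf hN hsum hpar
    have hσ2 : σ * σ = 1 := by rcases hσ with h | h <;> rw [h] <;> norm_num
    set ε : G := ((i :: k :: L).map v).prod with hε
    have hεε : ∀ x, ε * (ε * x) = x := by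
      intro x
      rw [← mul_assoc, prod_sq v hv2, one_mul]
    set ε' : G := ((k :: L).map v).prod with hε'
    have hεe : ε = v i * ε' := by rw [hε, List.map_cons, List.prod_cons]
    have hik : i ∉ k :: L := (List.nodup_cons.1 hnd).1
    have hki : k ≠ i := fun h => hik (h ▸ List.mem_cons_self)
    have hNi := hN i List.mem_cons_self
    obtain ⟨hd, hID'⟩ := hID
    -- the function B
    set B : G → ℤ := fun x => N i x - σ * N i (ε * x) with hB
    have hBi : HInv (Γ i) B := by
      intro u hu x
      simp only [hB]
      rw [hNi.1 u hu, mul_left_comm ε u x, hNi.1 u hu]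
    have hBΔ : HInv Δ B := by
      intro u hu x
      simp only [hB]
      rw [hNi.2 u hu, mul_left_comm ε u x, hNi.2 u hu]
    have hBs : ∀ x, B x = ((k :: L).map (fun j => -(N j x - σ * N j (ε * x)))).sum := by
      intro x
      have h1 := hsum x
      have h2 := hsum (ε * x)
      rw [hf x] at h2
      rw [List.map_cons, List.sum_cons] at h1 h2
      have h3 : ((k :: L).map (fun j => -(N j x - σ * N j (ε * x)))).sum =
          -((k :: L).map (fun j => N j x)).sum + σ * ((k :: L).map (fun j => N j (ε * x))).sum := by
        clear h1 h2
        induction (k :: L) with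
        | nil => simp
        | cons a M ihM =>
          simp only [List.map_cons, List.sum_cons]
          rw [ihM]
          ring
      rw [h3]
      simp only [hB]
      have h4 : σ * (σ * f x) = f x := by rw [← mul_assoc, hσ2, one_mul]
      have h5 : σ * (σ * f x) = σ * (N i (ε * x) +
        ((k :: L).map (fun j => N j (ε * x))).sum) := by rw [h2]
      rw [h4] at h5
      linarith
    by_cases hL : L = []
    · -- two subgroups
      subst hL
      have hNk := hN k (by simp)
      have hBk : HInv (Γ k) B := by
        intro u hu x
        rw [hBs, hBs]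
        simp only [List.map_cons, List.map_nil, List.sum_cons, List.sum_nil, add_zero]
        rw [hNk.1 u hu, mul_left_comm ε u x, hNk.1 u hu]
      have hBc : ∀ x, B x = B 1 := by
        intro x
        have h1 : HInv (Pl Γ (i :: [k]) ⊔ Δ) B := by
          refine HInv.sup ?_ hBΔ
          rw [Pl, Pl, Pl]
          refine HInv.sup hBi (HInv.sup hBk ?_)
          intro u hu x
          rw [Subgroup.mem_bot.1 hu, one_mul]
        have h2 := h1 x (by rw [htop]; trivial) 1
        rwa [mul_one] at h2
      have hfx : ∀ x, f x = N i x + N k x := by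
        intro x
        rw [hsum x]
        simp
      have hεk : ε = v i * v k := by rw [hεe, hε']; simp
      have hc1 : B 1 = N i 1 - σ * N i (v k) := by
        simp only [hB]
        rw [mul_one, hεk, hNi.1 (v i) (hv i)]
      obtain ⟨c, hc, hc0⟩ : ∃ c : ℤ, B 1 = 2 * c ∧ (σ = 1 → c = 0) := by
        rcases hσ with h | h
        · have h1 := hBc (v k)
          have h2 : B (v k) = -(B 1) := by
            rw [hc1]
            simp only [hB]
            have : ε * v k = v i * 1 := by
              rw [hεk, mul_assoc, hv2]
            rw [this, hNi.1 (v i) (hv i), h]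
            ring
          refine ⟨0, by linarith, fun _ => rfl⟩
        · rcases hpar with hp | hp
          · simp only [PS] at hp
            rw [hfx, hfx, mul_one, show N k (v k) = N k 1 by
              have := hNk.1 (v k) (hv k) 1; rwa [mul_one] at this] at hp
            have h3 : N i 1 + N k 1 + (N i (v k) + N k 1) = B 1 + 2 * N k 1 := by
              rw [hc1, h]; ring
            rw [h3] at hp
            have h4 : Even (B 1) := by
              have := (Int.even_add.1 hp).2 (even_two_mul _)
              exact this
            obtain ⟨c, hc⟩ := h4.two_dvd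
            exact ⟨c, hc, fun h5 => by rw [h] at h5; norm_num at h5⟩
          · rw [h] at hp
            norm_num at hp
      have hNiε : ∀ x, N i (ε * x) = σ * N i x - σ * (2 * c) := by
        intro x
        have h1 := hBc x
        rw [hc] at h1
        simp only [hB] at h1
        have h2 : N i (ε * x) = σ * (σ * N i (ε * x)) := by rw [← mul_assoc, hσ2, one_mul]
        rw [h2, show σ * N i (ε * x) = N i x - 2 * c by linarith]
        ring
      have hcs : (σ + 1) * c = 0 := by
        rcases hσ with h | h
        · rw [hc0 h, mul_zero]
        · rw [h]; norm_num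
      refine ⟨fun j x => if j = i then N i x - c else N k x + c, ?_, ?_, ?_⟩
      · intro j hj
        by_cases hji : j = i
        · subst hji
          simp only [if_true]
          exact ⟨fun u hu x => by show N j (u * x) - c = N j x - c; rw [hNi.1 u hu],
            fun u hu x => by show N j (u * x) - c = N j x - c; rw [hNi.2 u hu]⟩
        · have hjk : j = k := by
            rcases List.mem_cons.1 hj with h | h
            · exact absurd h hji
            · simpa using h
          subst hjk
          simp only [if_neg hji]
          exact ⟨fun u hu x => by show N j (u * x) + c = N j x + c; rw [hNk.1 u hu],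
            fun u hu x => by show N j (u * x) + c = N j x + c; rw [hNk.2 u hu]⟩
      · intro x
        simp only [List.map_cons, List.map_nil, List.sum_cons, List.sum_nil, if_true, if_neg hki]
        rw [hfx x]
        ring
      · intro j hj x
        by_cases hji : j = i
        · simp only [if_pos hji]
          rw [hNiε x]
          linear_combination (-1 : ℤ) * hcs
        · simp only [if_neg hji]
          have h1 : N k (ε * x) = σ * f x - N i (ε * x) := by
            have := hfx (ε * x)
            rw [hf x] at this
            linarith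
          rw [h1, hNiε x, hfx x]
          linear_combination (1 : ℤ) * hcs
    · -- at least three subgroups
      obtain ⟨u, hu1, hu2, hu3⟩ := exists_retract (Γ i) (Pl Γ (k :: L) ⊔ Δ) hd
      set ρ : G → G := fun x => (u x)⁻¹ * x with hρ
      have hρi : ∀ a ∈ Γ i, ∀ x, ρ (a * x) = ρ x := by
        intro a ha x
        simp only [hρ]
        rw [hu2 a ha x, mul_inv, mul_comm a⁻¹, mul_assoc, inv_mul_cancel_left]
      have hρw : ∀ w ∈ Pl Γ (k :: L) ⊔ Δ, ∀ x, ρ (w * x) = w * ρ x := by
        intro w hw x
        simp only [hρ]
        rw [hu3 w hw x, mul_left_comm]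
      have hBρ : ∀ x, B (ρ x) = B x := fun x => hBi _ ((Γ i).inv_mem (hu1 x)) x
      have hB' : ∀ x, B (ε' * x) = -σ * B x := by
        intro x
        have h1 : B (ε' * x) = B (ε * x) := by
          rw [hεe, mul_assoc, hBi (v i) (hv i)]
        rw [h1]
        simp only [hB]
        rw [hεε]
        linear_combination (-(N i (ε * x))) * hσ2
      have hC0 : ∀ j ∈ k :: L, HInv (Γ j) (fun x => -(N j (ρ x) - σ * N j (ε * ρ x))) ∧
          HInv (Δ ⊔ Γ i) (fun x => -(N j (ρ x) - σ * N j (ε * ρ x))) := by
        intro j hj
        have hNj := hN j (List.mem_cons_of_mem _ hj)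
        refine ⟨?_, HInv.sup ?_ ?_⟩
        · intro w hw x
          show -(N j (ρ (w * x)) - σ * N j (ε * ρ (w * x))) = _
          rw [hρw w (Subgroup.mem_sup_left (le_Pl Γ _ j hj hw)), hNj.1 w hw,
            mul_left_comm ε w, hNj.1 w hw]
        · intro w hw x
          show -(N j (ρ (w * x)) - σ * N j (ε * ρ (w * x))) = _
          rw [hρw w (Subgroup.mem_sup_right hw), hNj.2 w hw,
            mul_left_comm ε w, hNj.2 w hw]
        · intro w hw x
          show -(N j (ρ (w * x)) - σ * N j (ε * ρ (w * x))) = _
          rw [hρi w hw]
      have htop' : Pl Γ (k :: L) ⊔ (Δ ⊔ Γ i) = ⊤ := by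
        have e : Pl Γ (i :: k :: L) ⊔ Δ = Pl Γ (k :: L) ⊔ (Δ ⊔ Γ i) := by
          rw [Pl.eq_2, sup_comm (Γ i), sup_assoc, sup_comm (Γ i)]
        rw [← e, htop]
      have hpar' : Even (PS v L B) ∨ -σ = (-1) ^ (L.length + 1) := by
        rcases hpar with h | h
        · left
          have h1 : PS v (k :: L) f = PS v (k :: L) (N i) +
              ((k :: L).map (fun j => PS v (k :: L) (N j))).sum := by
            have h2 : f = fun x => N i x + ((k :: L).map (fun j => N j x)).sum := by
              funext x
              rw [hsum x, List.map_cons, List.sum_cons]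
            conv_lhs => rw [h2]
            rw [PS_add, PS_list]
          have h3 : Even ((k :: L).map (fun j => PS v (k :: L) (N j))).sum := by
            have : ∀ M : List ι, (∀ j ∈ M, j ∈ k :: L) →
                Even (M.map (fun j => PS v (k :: L) (N j))).sum := by
              intro M
              induction M with
              | nil => intro _; simp
              | cons a M ihM =>
                intro hM
                rw [List.map_cons, List.sum_cons]
                exact (PS_even Γ v hv _ a (hM a List.mem_cons_self) _
                  (hN a (List.mem_cons_of_mem _ (hM a List.mem_cons_self))).1).add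
                  (ihM fun j hj => hM j (List.mem_cons_of_mem _ hj))
            exact this _ fun _ h => h
          have h4 : Even (PS v (k :: L) (N i)) := by
            rw [h1] at h
            exact (Int.even_add.1 h).2 h3
          have h5 : PS v (k :: L) (N i) = PS v L (N i) + PS v L (fun x => N i (v k * x)) := by
            rw [PS, PS_add]
          have h6 : PS v L B = PS v L (N i) - σ * PS v L (fun x => N i (v k * x)) := by
            have h7 : PS v L (fun x => N i (ε * x)) = PS v L (fun x => N i (v k * x)) := by
              rw [← PS_shift_prod v hv2 L L (fun _ h => h) (fun x => N i (v k * x))]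
              congr 1
              funext x
              have : ε * x = v i * (v k * ((L.map v).prod * x)) := by
                rw [hεe, hε', List.map_cons, List.prod_cons]
                simp only [mul_assoc]
              rw [this, hNi.1 (v i) (hv i)]
            have h8 : B = fun x => N i x + (-σ) * N i (ε * x) := by
              funext x; simp only [hB]; ring
            rw [h8, PS_add, PS_mul v L (-σ) (fun x => N i (ε * x)), h7]
            ring
          rw [h5] at h4
          rw [h6]
          rcases hσ with hs | hs
          · rw [hs]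
            have : PS v L (N i) - 1 * PS v L (fun x => N i (v k * x)) =
                (PS v L (N i) + PS v L (fun x => N i (v k * x))) +
                2 * (-(PS v L (fun x => N i (v k * x)))) := by ring
            rw [this]
            exact h4.add (even_two_mul _)
          · rw [hs]
            have : PS v L (N i) - -1 * PS v L (fun x => N i (v k * x)) =
                PS v L (N i) + PS v L (fun x => N i (v k * x)) := by ring
            rw [this]
            exact h4
        · right
          rw [h, List.length_cons]
          ring
      obtain ⟨C, hC1, hC2, hC3⟩ := ih k hL (List.nodup_cons.1 hnd).2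
        (fun j hj => hne j (List.mem_cons_of_mem _ hj)) (Δ ⊔ Γ i) (-σ)
        (by rcases hσ with h | h <;> rw [h] <;> norm_num) hID' htop' B
        (fun j x => -(N j (ρ x) - σ * N j (ε * ρ x))) hB' hC0
        (fun x => by rw [← hBρ x, hBs (ρ x)]) hpar'
      -- half systems
      have hhalf : ∀ j, ∃ s : G → ℤ, j ∈ k :: L →
          HInv (Γ j) s ∧ HInv (Δ ⊔ Γ i) s ∧ ∀ x, s (ε * x) = 1 - s x := by
        intro j
        by_cases hj : j ∈ k :: L
        · obtain ⟨l, hl, hlj⟩ : ∃ l ∈ k :: L, l ≠ j := by
            by_cases hkj : k = j
            · obtain ⟨l, hl⟩ := List.exists_mem_of_ne_nil L hL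
              refine ⟨l, List.mem_cons_of_mem _ hl, ?_⟩
              rintro rfl
              subst hkj
              exact (List.nodup_cons.1 (List.nodup_cons.1 hnd).2).1 hl
            · exact ⟨k, List.mem_cons_self, hkj⟩
          obtain ⟨s, hs1, hs2⟩ := ND_halfk Γ v hv hv2 (k :: L) (Δ ⊔ Γ i) hID' l hl
            (hne l (List.mem_cons_of_mem _ hl)) (v i) (Subgroup.mem_sup_right (hv i))
          refine ⟨s, fun _ => ⟨hs1.mono ?_, hs1.mono le_sup_right, fun x => ?_⟩⟩
          · refine (le_Pl Γ _ j ?_).trans le_sup_left
            exact (List.mem_erase_of_ne hlj.symm).2 hj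
          · rw [hεe]
            exact hs2 x
        · exact ⟨fun _ => 0, fun h => absurd h hj⟩
      choose h hh using hhalf
      have hCε : ∀ j ∈ k :: L, ∀ x, C j (ε * x) = -σ * C j x := by
        intro j hj x
        rw [hεe, mul_assoc, (hC1 j hj).2.mono le_sup_right (v i) (hv i), hC3 j hj]
      set A : ι → G → ℤ := fun j x => -(h j x * C j x) with hA
      have hAε : ∀ j ∈ k :: L, ∀ x, A j (ε * x) = σ * (C j x + A j x) := by
        intro j hj x
        simp only [hA]
        rw [(hh j hj).2.2 x, hCε j hj x]
        ring
      have hAinv : ∀ j ∈ k :: L, HInv (Γ j) (A j) ∧ HInv (Δ ⊔ Γ i) (A j) := by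
        intro j hj
        constructor
        · intro w hw x
          simp only [hA]
          rw [(hh j hj).1 w hw, (hC1 j hj).1 w hw]
        · intro w hw x
          simp only [hA]
          rw [(hh j hj).2.1 w hw, (hC1 j hj).2 w hw]
      set Ni : G → ℤ := fun x => N i x + ((k :: L).map (fun j => A j x)).sum with hNi'
      have hsumA : ∀ x, ((k :: L).map (fun j => A j (ε * x))).sum =
          σ * (B x + ((k :: L).map (fun j => A j x)).sum) := by
        intro x
        rw [hC2 x]
        have : ∀ M : List ι, (∀ j ∈ M, j ∈ k :: L) → (M.map (fun j => A j (ε * x))).sum =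
            σ * ((M.map (fun j => C j x)).sum + (M.map (fun j => A j x)).sum) := by
          intro M
          induction M with
          | nil => intro _; simp
          | cons a M ihM =>
            intro hM
            simp only [List.map_cons, List.sum_cons]
            rw [ihM (fun j hj => hM j (List.mem_cons_of_mem _ hj)),
              hAε a (hM a List.mem_cons_self) x]
            ring
        exact this _ (fun _ h => h)
      have hNiτ : ∀ x, Ni (ε * x) = σ * Ni x := by
        intro x
        simp only [hNi']
        rw [hsumA x]
        simp only [hB]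
        linear_combination (-(N i (ε * x))) * hσ2
      have hlist : ∀ (M : List ι) (g : ι → G → ℤ) (H : Subgroup G), (∀ j ∈ M, HInv H (g j)) →
          HInv H (fun x => (M.map (fun j => g j x)).sum) := by
        intro M g H hM w hw x
        show (M.map (fun j => g j (w * x))).sum = (M.map (fun j => g j x)).sum
        congr 1
        apply List.map_congr_left
        intro j hj
        exact hM j hj w hw x
      have hNiinv : HInv (Γ i) Ni ∧ HInv Δ Ni := by
        constructor
        · intro w hw x
          simp only [hNi']
          rw [hNi.1 w hw]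
          congr 1
          exact hlist _ A (Γ i) (fun j hj => (hAinv j hj).2.mono le_sup_right) w hw x
        · intro w hw x
          simp only [hNi']
          rw [hNi.2 w hw]
          congr 1
          exact hlist _ A Δ (fun j hj => (hAinv j hj).2.mono le_sup_left) w hw x
      -- the free coordinate
      obtain ⟨s, hs1, hs2⟩ := ND_halfk Γ v hv hv2 (i :: k :: L) Δ ⟨hd, hID'⟩ i
        List.mem_cons_self (hne i List.mem_cons_self) 1 Δ.one_mem
      have hs2' : ∀ x, s (ε * x) = 1 - s x := by
        intro x
        have := hs2 x
        rwa [one_mul] at this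
      rw [List.erase_cons_head] at hs1
      set M1 : ι → G → ℤ := fun j x => N j x - A j x with hM1
      have hM1inv : ∀ j ∈ k :: L, HInv (Γ j) (M1 j) ∧ HInv Δ (M1 j) := by
        intro j hj
        have hNj := hN j (List.mem_cons_of_mem _ hj)
        constructor
        · intro w hw x
          simp only [hM1]
          rw [hNj.1 w hw, (hAinv j hj).1 w hw]
        · intro w hw x
          simp only [hM1]
          rw [hNj.2 w hw, (hAinv j hj).2.mono le_sup_left w hw]
      have hM1s : ∀ x, ((k :: L).map (fun j => M1 j x)).sum = f x - Ni x := by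
        intro x
        have h0 := hsum x
        rw [List.map_cons, List.sum_cons] at h0
        simp only [hNi', hM1]
        have : ∀ M : List ι, (M.map (fun j => N j x - A j x)).sum =
            (M.map (fun j => N j x)).sum - (M.map (fun j => A j x)).sum := by
          intro M
          induction M with
          | nil => simp
          | cons a M ihM =>
            simp only [List.map_cons, List.sum_cons]
            rw [ihM]
            ring
        rw [this]
        linarith
      refine ⟨fun j x => if j = i then Ni x else s x * M1 j x + (1 - s x) * (σ * M1 j (ε * x)),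
        ?_, ?_, ?_⟩
      · intro j hj
        by_cases hji : j = i
        · subst hji
          simp only [if_true]
          exact hNiinv
        · have hj' : j ∈ k :: L := (List.mem_cons.1 hj).resolve_left hji
          simp only [if_neg hji]
          constructor
          · intro w hw x
            show s (w * x) * M1 j (w * x) + (1 - s (w * x)) * (σ * M1 j (ε * (w * x))) = _
            rw [hs1.mono ((le_Pl Γ _ j hj').trans le_sup_left) w hw, (hM1inv j hj').1 w hw,
              mul_left_comm ε w, (hM1inv j hj').1 w hw]
          · intro w hw x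
            show s (w * x) * M1 j (w * x) + (1 - s (w * x)) * (σ * M1 j (ε * (w * x))) = _
            rw [hs1.mono le_sup_right w hw, (hM1inv j hj').2 w hw,
              mul_left_comm ε w, (hM1inv j hj').2 w hw]
      · intro x
        rw [List.map_cons, List.sum_cons]
        simp only [if_true]
        have h1 : (k :: L).map (fun j => if j = i then Ni x else
            s x * M1 j x + (1 - s x) * (σ * M1 j (ε * x))) = (k :: L).map (fun j =>
            s x * M1 j x + (1 - s x) * (σ * M1 j (ε * x))) := by
          apply List.map_congr_left
          intro j hj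
          rw [if_neg]
          rintro rfl
          exact hik hj
        rw [h1]
        have h2 : ∀ M : List ι, (M.map (fun j => s x * M1 j x + (1 - s x) * (σ * M1 j (ε * x)))).sum
            = s x * (M.map (fun j => M1 j x)).sum +
              (1 - s x) * (σ * (M.map (fun j => M1 j (ε * x))).sum) := by
          intro M
          induction M with
          | nil => simp
          | cons a M ihM =>
            simp only [List.map_cons, List.sum_cons]
            rw [ihM]
            ring
        rw [h2, hM1s, hM1s, hf, hNiτ]
        linear_combination (-(1 - s x) * (f x - Ni x)) * hσ2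
      · intro j hj x
        by_cases hji : j = i
        · simp only [if_pos hji]
          exact hNiτ x
        · simp only [if_neg hji]
          rw [hs2' x, hεε x]
          linear_combination (-(1 - s x) * M1 j (ε * x)) * hσ2

end Pool.Agent.helper34.MD
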