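import Pool.Agent.helper34.MD.ND
import Pool.Agent.helper88.EF.Defs

/-!
# Decompositions modulo `D` for any number of primes, and removal of the obstruction
-/

set_option autoImplicit false

namespace Pool.Agent.helper34.MD

open Finset Pool.Agent.helper76.LP

lemma ID_of_indep {G ι : Type*} [CommGroup G] (Γ : ι → Subgroup G) (L : List ι) (Δ : Subgroup G)
    (hI : Indep Γ L) (hd : Disjoint Δ (Pl Γ L)) : ID Γ L Δ := by
  induction L generalizing Δ with
  | nil => trivial
  | cons i L ih =>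
    obtain ⟨h1, h2⟩ := hI
    rw [Pl] at hd
    have key : ∀ δ ∈ Δ, ∀ g ∈ Γ i, ∀ y ∈ Pl Γ L, δ * g = y → δ = 1 ∧ g = 1 ∧ y = 1 := by
      intro δ hδ g hg y hy h
      have h3 : δ = g⁻¹ * y := by rw [← h, mul_comm δ g, inv_mul_cancel_left]
      have h4 : δ = 1 := Subgroup.disjoint_def.1 hd hδ
        (by rw [h3]; exact Subgroup.mul_mem_sup ((Γ i).inv_mem hg) hy)
      rw [h4, one_mul] at h
      have h5 : g = 1 := Subgroup.disjoint_def.1 h1 hg (h ▸ hy)
      exact ⟨h4, h5, by rw [← h, h5]⟩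
    refine ⟨?_, ih (Δ ⊔ Γ i) h2 ?_⟩
    · rw [Subgroup.disjoint_def]
      intro x hx hx'
      obtain ⟨y, hy, δ, hδ, rfl⟩ := Subgroup.mem_sup.1 hx'
      have h3 := key δ⁻¹ (Δ.inv_mem hδ) (y * δ) hx y hy
        (by rw [mul_comm y δ, inv_mul_cancel_left])
      exact h3.2.1
    · rw [Subgroup.disjoint_def]
      intro x hx hx'
      obtain ⟨δ, hδ, g, hg, rfl⟩ := Subgroup.mem_sup.1 hx
      exact (key δ hδ g hg _ hx' rfl).2.2

/-- decomposition modulo `D`: any number of primes at least two -/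
theorem ndec_par (D : ℕ) [NeZero D] (i : ℕ) (L : List ℕ) (hL0 : L ≠ []) (hnd : (i :: L).Nodup)
    (hL : (i :: L).toFinset = D.primeFactors) (htop : Pl (Gam D) (i :: L) = ⊤)
    (ν : ℕ → (ZMod D)ˣ) (hν : ∀ p, ν p ∈ Gam D p) (hν2 : ∀ p, ν p * ν p = 1)
    (hν1 : ∀ p ∈ i :: L, ν p ≠ 1) (hprod : ((i :: L).map ν).prod = -1)
    (f : (ZMod D)ˣ → ℤ) (hodd : ∀ x, f (-x) = - f x) (hf : MDv (Gam D) (i :: L) f)
    (hpar : Even (PS ν L f) ∨ Odd (i :: L).length) : NDec D f := by
  have hI : Indep (Gam D) (i :: L) := indep_Gam D _ hnd fun r hr => by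
    rw [← hL, List.mem_toFinset]; exact hr
  obtain ⟨N, hN1, hN2⟩ := nd_exists (Gam D) (i :: L) hnd hI f hf
  obtain ⟨N', h1, h2, h3⟩ := nd_gen (Gam D) ν hν hν2 L i hL0 hnd hν1 ⊥ (-1) (Or.inr rfl)
    (ID_of_indep _ _ _ hI disjoint_bot_left) (by rw [sup_bot_eq, htop]) f N
    (fun x => by rw [hprod, neg_one_mul, hodd]; ring)
    (fun j hj => ⟨fun u hu x => hN1 j hj u hu x, fun u hu x => by
      rw [Subgroup.mem_bot.1 hu, one_mul]⟩) hN2
    (by
      rcases hpar with h | h
      · exact Or.inl h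
      · right
        rw [List.length_cons] at h
        exact h.neg_one_pow.symm)
  refine D2_ndec_of_gdec D (i :: L) hnd hL f ⟨N', fun j hj u hu x => (h1 j hj).1 u hu x, h2, ?_⟩
  intro j hj x
  have := h3 j hj x
  rw [hprod] at this
  rw [this]
  ring

/-- the sign changes -/
theorem nu_exists' (D : ℕ) [NeZero D] (hD : D % 4 ≠ 2)
    (h : (∀ p, p.Prime → Odd p → ¬ p ^ 2 ∣ D) ∧ ¬ 8 ∣ D) (L : List ℕ) (hnd : L.Nodup)
    (hL : L.toFinset = D.primeFactors) :
    Pl (Gam D) L = ⊤ ∧ ∃ ν : ℕ → (ZMod D)ˣ, (∀ p, ν p ∈ Gam D p) ∧ (∀ p, ν p * ν p = 1) ∧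
      (∀ p ∈ L, ν p ≠ 1) ∧ (L.map ν).prod = -1 := by
  have hI : Indep (Gam D) L := indep_Gam D _ hnd fun r hr => by
    rw [← hL, List.mem_toFinset]; exact hr
  have hprod := (eq_prod_lam D hD h).2
  have htop : Pl (Gam D) L = ⊤ := by
    apply Pl_eq_top (Gam D) L hI
    rw [Nat.card_eq_fintype_card, ZMod.card_units_eq_totient, hprod, ← hL,
      List.prod_toFinset _ hnd]
  refine ⟨htop, ?_⟩
  have key : ∀ (M : List ℕ), M.Nodup → ∀ x ∈ Pl (Gam D) M, ∃ ν : ℕ → (ZMod D)ˣ,
      (∀ p, ν p ∈ Gam D p) ∧ (∀ p, p ∉ M → ν p = 1) ∧ (M.map ν).prod = x := by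
    intro M
    induction M with
    | nil =>
      intro _ x hx
      exact ⟨fun _ => 1, fun p => Subgroup.one_mem _, fun _ _ => rfl,
        by rw [Subgroup.mem_bot.1 hx]; simp⟩
    | cons p M ih =>
      intro hn x hx
      rw [Pl] at hx
      obtain ⟨a, ha, y, hy, rfl⟩ := Subgroup.mem_sup.1 hx
      obtain ⟨ν, h1, h2, h3⟩ := ih (List.nodup_cons.1 hn).2 y hy
      refine ⟨Function.update ν p a, ?_, ?_, ?_⟩
      · intro q
        by_cases hq : q = p
        · subst hq; rw [Function.update_self]; exact ha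
        · rw [Function.update_of_ne hq]; exact h1 q
      · intro q hq
        have hqp : q ≠ p := fun h => hq (h ▸ List.mem_cons_self)
        rw [Function.update_of_ne hqp]
        exact h2 q (fun h => hq (List.mem_cons_of_mem _ h))
      · rw [List.map_cons, List.prod_cons, Function.update_self]
        congr 1
        rw [← h3]
        congr 1
        apply List.map_congr_left
        intro q hq
        rw [Function.update_of_ne]
        rintro rfl
        exact (List.nodup_cons.1 hn).1 hq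
  obtain ⟨ν, h1, h2, h3⟩ := key L hnd (-1) (by rw [htop]; trivial)
  have hsq : ∀ (M : List ℕ), Indep (Gam D) M → M.Nodup → (M.map fun p => ν p * ν p).prod = 1 →
      ∀ p ∈ M, ν p * ν p = 1 := by
    intro M
    induction M with
    | nil => intro _ _ _ p hp; simp at hp
    | cons q M ih =>
      intro hIM hn hM p hp
      rw [List.map_cons, List.prod_cons] at hM
      have hm : (M.map fun p => ν p * ν p).prod ∈ Pl (Gam D) M :=
        prod_mem_Pl (Gam D) (fun p => ν p * ν p) (fun p => mul_mem (h1 p) (h1 p)) M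
      have h4 : ν q * ν q = 1 := by
        refine Subgroup.disjoint_def.1 hIM.1 (mul_mem (h1 q) (h1 q)) ?_
        rw [eq_inv_of_mul_eq_one_left hM]
        exact inv_mem hm
      rcases List.mem_cons.1 hp with rfl | hp'
      · exact h4
      · rw [h4, one_mul] at hM
        exact ih hIM.2 (List.nodup_cons.1 hn).2 hM p hp'
  have hsq1 : (L.map fun p => ν p * ν p).prod = 1 := by
    have h5 : (L.map fun p => ν p * ν p).prod = (L.map ν).prod * (L.map ν).prod := by
      rw [List.prod_map_mul]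
    rw [h5, h3]
    simp
  have h22 : ∀ p, ν p * ν p = 1 := by
    intro p
    by_cases hp : p ∈ L
    · exact hsq L hI hnd hsq1 p hp
    · rw [h2 p hp, one_mul]
  refine ⟨ν, h1, h22, ?_, h3⟩
  intro p hp hν1
  have hpD : p ∈ D.primeFactors := by rw [← hL]; exact List.mem_toFinset.2 hp
  refine D3_not_mem D hD p hpD (L.erase p) ?_ ?_
  · intro q hq
    refine ⟨by rw [← hL]; exact List.mem_toFinset.2 (List.mem_of_mem_erase hq), ?_⟩
    rintro rfl
    exact (List.Nodup.not_mem_erase hnd) hq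
  · rw [← h3, ← List.prod_map_erase ν hp, hν1, one_mul]
    exact prod_mem_Pl (Gam D) ν h1 _

/-- odd number of primes: no obstruction -/
theorem ndec_odd (D : ℕ) [NeZero D] (hD : D % 4 ≠ 2)
    (h : (∀ p, p.Prime → Odd p → ¬ p ^ 2 ∣ D) ∧ ¬ 8 ∣ D) (hcard : Odd D.primeFactors.card)
    (f : (ZMod D)ˣ → ℤ) (hodd : ∀ x, f (-x) = - f x)
    (hf : ∀ L : List ℕ, L.Nodup → L.toFinset = D.primeFactors → MDv (Gam D) L f) : NDec D f := by
  set L := D.primeFactors.toList with hLdef
  have hLn : L.Nodup := Finset.nodup_toList _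
  have hLt : L.toFinset = D.primeFactors := Finset.toList_toFinset _
  have hlen : L.length = D.primeFactors.card := Finset.length_toList _
  by_cases h1 : D.primeFactors.card = 1
  · obtain ⟨htop, -⟩ := nu_exists' D hD h L hLn hLt
    exact ndec_one D (by omega) L hLn hLt (by rw [htop]; trivial) f hodd (hf L hLn hLt)
  · obtain ⟨htop, ν, hν, hν2, hν1, hprod⟩ := nu_exists' D hD h L hLn hLt
    clear_value L
    match L, hlen, hLn, hLt, htop, hν1, hprod with
    | [], hlen, _, _, _, _, _ => rw [← hlen] at hcard; simp at hcard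
    | [p], hlen, _, _, _, _, _ => exact absurd hlen.symm h1
    | i :: k :: M, hlen, hLn, hLt, htop, hν1, hprod =>
      exact ndec_par D i (k :: M) (by simp) hLn hLt htop ν hν hν2 hν1 hprod f hodd
        (hf _ hLn hLt) (Or.inr (by rw [hlen]; exact hcard))

open Pool.Agent.helper34.DH in
/-- a Tate function with odd parity removes the obstruction -/
theorem fix_of_par (E : AddSubgroup Qt) (D : ℕ) [NeZero D] (i : ℕ) (L : List ℕ) (hL0 : L ≠ [])
    (hnd : (i :: L).Nodup)
    (hL : (i :: L).toFinset = D.primeFactors) (htop : Pl (Gam D) (i :: L) = ⊤)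
    (ν : ℕ → (ZMod D)ˣ) (hν : ∀ p, ν p ∈ Gam D p) (hν2 : ∀ p, ν p * ν p = 1)
    (hν1 : ∀ p ∈ i :: L, ν p ≠ 1) (hprod : ((i :: L).map ν).prod = -1)
    (e : ZMod D → ℤ) (he1 : TateF (anti e)) (he2 : cls D e ∈ E)
    (he3 : Odd (PS ν L (fun z => anti e (z : ZMod D)))) :
    Pool.Agent.helper88.EF.FixE E D := by
  refine ⟨e, he1, he2, ?_⟩
  intro f g hf hfL hg hgodd hgL
  rcases Int.even_or_odd (PS ν L f) with h | h
  · left
    exact ndec_par D i L hL0 hnd hL htop ν hν hν2 hν1 hprod f hf (hfL _ hnd hL) (Or.inl h)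
  · right
    refine ndec_par D i L hL0 hnd hL htop ν hν hν2 hν1 hprod g hgodd (hgL _ hnd hL) (Or.inl ?_)
    have h1 : PS ν L g = PS ν L f - PS ν L (fun z => anti e (z : ZMod D)) := by
      have h2 : g = fun z => f z + (-1) * anti e (z : ZMod D) := by
        rw [hg]; funext z; ring
      rw [h2, PS_add, PS_mul ν L (-1) (fun z => anti e (z : ZMod D))]
      ring
    rw [h1]
    exact h.sub_odd he3

end Pool.Agent.helper34.MD
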