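import Pool.Agent.helper96.XL.SAW
import Pool.Agent.helper58.FQ.PU

/-!
# Sums of the sawtooth function over units
-/

set_option autoImplicit false

namespace Pool.Agent.helper34.MD

open Finset

/-- the sawtooth function -/
noncomputable abbrev sw (n : ℕ) (x : ZMod n) : ℚ := Pool.Agent.helper34.EL.saw n x

lemma sw_nat (n m : ℕ) [NeZero n] [NeZero m] (h : m ∣ n) (y : ZMod m) :
    sw n (((n / m : ℕ) : ZMod n) * ((y.val : ℕ) : ZMod n)) = sw m y := by
  have h1 := Pool.Agent.helper34.EL.saw_level n m h (y.val : ℤ)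
  have h2 : (((y.val : ℕ) : ℤ) : ZMod m) = y := by
    rw [Int.cast_natCast, ZMod.natCast_zmod_val]
  rw [h2, Int.cast_natCast] at h1
  exact h1

/-- summation over the fibres of the reduction -/
theorem sum_red (D D1 : ℕ) [NeZero D] [NeZero D1] (h : D1 ∣ D) (g : ZMod D1 → ℚ) :
    ∑ x : ZMod D, g (ZMod.castHom h (ZMod D1) x) * sw D x = ∑ y : ZMod D1, g y * sw D1 y := by
  classical
  have hq : D / D1 ∣ D := Nat.div_dvd_of_dvd h
  have hD1 : 0 < D1 := Nat.pos_of_ne_zero (NeZero.ne D1)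
  have hD : 0 < D := Nat.pos_of_ne_zero (NeZero.ne D)
  have hmul : D / D1 * D1 = D := Nat.div_mul_cancel h
  have hq0 : 0 < D / D1 := Nat.div_pos (Nat.le_of_dvd hD h) hD1
  have hfib : ∀ x x' : ZMod D, ZMod.castHom h (ZMod D1) x = ZMod.castHom h (ZMod D1) x' ↔
      ((D / D1 : ℕ) : ZMod D) * x = ((D / D1 : ℕ) : ZMod D) * x' := by
    intro x x'
    obtain ⟨a, rfl⟩ := ZMod.intCast_surjective x
    obtain ⟨b, rfl⟩ := ZMod.intCast_surjective x'
    rw [map_intCast, map_intCast, ZMod.intCast_eq_intCast_iff_dvd_sub]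
    have e : ∀ c : ℤ, ((D / D1 : ℕ) : ZMod D) * (c : ZMod D) =
        ((((D / D1 : ℕ) : ℤ) * c : ℤ) : ZMod D) := by
      intro c; rw [Int.cast_mul, Int.cast_natCast]
    rw [e, e, ZMod.intCast_eq_intCast_iff_dvd_sub, ← mul_sub]
    have e2 : (D : ℤ) = ((D / D1 : ℕ) : ℤ) * D1 := by exact_mod_cast hmul.symm
    conv_rhs => rw [e2]
    exact (mul_dvd_mul_iff_left (by exact_mod_cast hq0.ne')).symm
  have hsum : ∀ y : ZMod D1, ∑ x ∈ univ.filter (fun x : ZMod D => ZMod.castHom h (ZMod D1) x = y),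
      sw D x = sw D1 y := by
    intro y
    have h1 := Pool.Agent.helper34.EL.saw_dist D (D / D1) hq ((y.val : ℕ) : ZMod D)
    rw [← sw_nat D D1 h y]
    rw [show sw D (((D / D1 : ℕ) : ZMod D) * ((y.val : ℕ) : ZMod D)) =
      Pool.Agent.helper34.EL.saw D (((D / D1 : ℕ) : ZMod D) * ((y.val : ℕ) : ZMod D)) from rfl,
      ← h1]
    apply Finset.sum_congr _ (fun _ _ => rfl)
    apply Finset.filter_congr
    intro x _
    rw [← hfib]
    rw [map_natCast, ZMod.natCast_zmod_val]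
  rw [← Finset.sum_fiberwise (s := univ) (g := fun x : ZMod D => ZMod.castHom h (ZMod D1) x)]
  apply Finset.sum_congr rfl
  intro y _
  rw [← hsum y, Finset.mul_sum]
  apply Finset.sum_congr rfl
  intro x hx
  rw [(Finset.mem_filter.1 hx).2]

/-- summation over the residues prime to `q` -/
theorem sum_unit (D D1 q k : ℕ) [NeZero D] [NeZero D1] (hq : q.Prime) (hk : 0 < k)
    (hD : D = q ^ k * D1) (h : D1 ∣ D) (f : ZMod D1 → ℚ) :
    ∑ x : ZMod D, (if q ∣ x.val then 0 else f (ZMod.castHom h (ZMod D1) x)) * sw D x =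
      ∑ y : ZMod D1, (f y - f ((q : ZMod D1) * y)) * sw D1 y := by
  classical
  have hD0 : 0 < D := Nat.pos_of_ne_zero (NeZero.ne D)
  have hD10 : 0 < D1 := Nat.pos_of_ne_zero (NeZero.ne D1)
  obtain ⟨k', rfl⟩ : ∃ k', k = k' + 1 := ⟨k - 1, by omega⟩
  set D2 : ℕ := q ^ k' * D1 with hD2
  have hD20 : 0 < D2 := Nat.mul_pos (pow_pos hq.pos _) hD10
  have : NeZero D2 := ⟨hD20.ne'⟩
  have hDD2 : D = q * D2 := by rw [hD, hD2, pow_succ]; ring
  have hqD : q ∣ D := ⟨D2, hDD2⟩
  have h2D : D2 ∣ D := ⟨q, by rw [hDD2]; ring⟩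
  have h12 : D1 ∣ D2 := ⟨q ^ k', by rw [hD2]; ring⟩
  have hquot : D / D2 = q := by rw [hDD2, Nat.mul_div_cancel _ hD20]
  have hsplit : ∑ x : ZMod D, (if q ∣ x.val then 0 else f (ZMod.castHom h (ZMod D1) x)) * sw D x =
      ∑ x : ZMod D, f (ZMod.castHom h (ZMod D1) x) * sw D x -
        ∑ x ∈ univ.filter (fun x : ZMod D => q ∣ x.val),
          f (ZMod.castHom h (ZMod D1) x) * sw D x := by
    rw [Finset.sum_filter, ← Finset.sum_sub_distrib]
    apply Finset.sum_congr rfl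
    intro x _
    split_ifs <;> ring
  rw [hsplit, sum_red D D1 h f]
  have hmult : ∑ x ∈ univ.filter (fun x : ZMod D => q ∣ x.val),
      f (ZMod.castHom h (ZMod D1) x) * sw D x =
      ∑ z : ZMod D2, f ((q : ZMod D1) * ZMod.castHom h12 (ZMod D1) z) * sw D2 z := by
    symm
    apply Finset.sum_bij (fun (z : ZMod D2) _ => ((q : ℕ) : ZMod D) * ((z.val : ℕ) : ZMod D))
    · intro z _
      rw [Finset.mem_filter]
      refine ⟨Finset.mem_univ _, ?_⟩
      rw [← Nat.cast_mul, ZMod.val_natCast, Nat.mod_eq_of_lt]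
      · exact Dvd.intro _ rfl
      · rw [hDD2]
        exact Nat.mul_lt_mul_of_pos_left (ZMod.val_lt z) hq.pos
    · intro z _ z' _ hzz
      rw [← Nat.cast_mul, ← Nat.cast_mul, ZMod.natCast_eq_natCast_iff', hDD2,
        Nat.mul_mod_mul_left, Nat.mul_mod_mul_left, Nat.mod_eq_of_lt (ZMod.val_lt z),
        Nat.mod_eq_of_lt (ZMod.val_lt z')] at hzz
      exact ZMod.val_injective _ (Nat.eq_of_mul_eq_mul_left hq.pos hzz)
    · intro x hx
      obtain ⟨-, c, hc⟩ := Finset.mem_filter.1 hx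
      refine ⟨(c : ZMod D2), Finset.mem_univ _, ?_⟩
      have hc2 : c < D2 := by
        have := ZMod.val_lt x
        rw [hc, hDD2] at this
        exact Nat.lt_of_mul_lt_mul_left this
      rw [ZMod.val_natCast, Nat.mod_eq_of_lt hc2, ← Nat.cast_mul, ← hc, ZMod.natCast_zmod_val]
    · intro z _
      have h5 := sw_nat D D2 h2D z
      rw [hquot] at h5
      rw [h5, map_mul, map_natCast, map_natCast]
      congr 2
      rw [show (ZMod.castHom h12 (ZMod D1)) z = ((z.val : ℕ) : ZMod D1) by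
        conv_lhs => rw [← ZMod.natCast_zmod_val z]
        rw [map_natCast]]
  rw [hmult, sum_red D2 D1 h12 (fun y => f ((q : ZMod D1) * y)), ← Finset.sum_sub_distrib]
  apply Finset.sum_congr rfl
  intro y _
  ring

end Pool.Agent.helper34.MD
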