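import Pool.Agent.helper34.MD.T1
import Pool.Agent.helper76.LP.Main2

/-!
# Indicators of classes of squares
-/

set_option autoImplicit false

namespace Pool.Agent.helper34.MD

open Finset Pool.Agent.helper76.LP

/-- the quadratic character of conductor `4` for `p = 2`, the Legendre symbol otherwise -/
def ch (p : ℕ) (n : ℤ) : ℤ := if p = 2 then ZMod.χ₄ (n : ZMod 4) else jacobiSym n p

lemma ch_mul (p : ℕ) (a b : ℤ) : ch p (a * b) = ch p a * ch p b := by
  unfold ch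
  split_ifs
  · rw [Int.cast_mul, map_mul]
  · exact jacobiSym.mul_left a b p

lemma ch_congr (p : ℕ) (a b : ℤ) (h : ((lp p : ℕ) : ℤ) ∣ a - b) : ch p a = ch p b := by
  unfold ch
  unfold Pool.Agent.helper76.LP.lp at h
  split_ifs with h2
  · rw [if_pos h2] at h
    have : (a : ZMod 4) = (b : ZMod 4) := by
      rw [← sub_eq_zero, ← Int.cast_sub, ZMod.intCast_zmod_eq_zero_iff_dvd]
      exact_mod_cast h
    rw [this]
  · rw [if_neg h2] at h
    rw [jacobiSym.mod_left a p, jacobiSym.mod_left b p]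
    congr 1
    exact (Int.modEq_iff_dvd.2 h).symm

lemma ch_zero_iff (p : ℕ) (hp : p.Prime) (a : ℤ) : ch p a = 0 ↔ (p : ℤ) ∣ a := by
  unfold ch
  split_ifs with h2
  · subst h2
    have h1 : ∀ z : ZMod 4, ZMod.χ₄ z = 0 ↔ z = 0 ∨ z = 2 := by decide
    rw [h1]
    constructor
    · rintro (h | h)
      · have := (ZMod.intCast_zmod_eq_zero_iff_dvd a 4).1 h
        exact dvd_trans (by norm_num) this
      · have h3 : ((a - 2 : ℤ) : ZMod 4) = 0 := by push_cast; rw [h]; ring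
        have := (ZMod.intCast_zmod_eq_zero_iff_dvd (a - 2) 4).1 h3
        push_cast at this ⊢
        omega
    · rintro ⟨c, rfl⟩
      rcases Int.even_or_odd' c with ⟨d, rfl | rfl⟩
      · left
        rw [ZMod.intCast_zmod_eq_zero_iff_dvd]
        exact ⟨d, by push_cast; ring⟩
      · right
        have h3 : ((((2 : ℕ) : ℤ) * (2 * d + 1) - 2 : ℤ) : ZMod 4) = 0 := by
          rw [ZMod.intCast_zmod_eq_zero_iff_dvd]
          exact ⟨d, by push_cast; ring⟩
        rw [Int.cast_sub, sub_eq_zero] at h3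
        rw [h3]
        rfl
  · have : Fact p.Prime := ⟨hp⟩
    rw [← jacobiSym.legendreSym.to_jacobiSym, legendreSym.eq_zero_iff,
      ZMod.intCast_zmod_eq_zero_iff_dvd]

lemma ch_vals (p : ℕ) (a : ℤ) : ch p a = 0 ∨ ch p a = 1 ∨ ch p a = -1 := by
  unfold ch
  split_ifs
  · have h1 : ∀ z : ZMod 4, ZMod.χ₄ z = 0 ∨ ZMod.χ₄ z = 1 ∨ ZMod.χ₄ z = -1 := by decide
    exact h1 _
  · exact jacobiSym.trichotomy a p

lemma ch_sq (p : ℕ) (hp : p.Prime) (a : ℤ) (h : ¬ (p : ℤ) ∣ a) : ch p a = 1 ∨ ch p a = -1 := by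
  rcases ch_vals p a with h1 | h1
  · exact absurd ((ch_zero_iff p hp a).1 h1) h
  · exact h1

/-- the prime is `2` (standing for `4`) or `3` modulo `4` -/
def T3 (p : ℕ) : Prop := p.Prime ∧ (p = 2 ∨ p % 4 = 3)

lemma ch_neg_one (p : ℕ) (hp : T3 p) : ch p (-1) = -1 := by
  unfold ch
  split_ifs with h2
  · decide
  · have h3 := hp.2.resolve_left h2
    rw [jacobiSym.at_neg_one (hp.1.odd_of_ne_two h2)]
    exact ZMod.χ₄_nat_three_mod_four h3

lemma ch_neg (p : ℕ) (hp : T3 p) (a : ℤ) : ch p (-a) = - ch p a := by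
  rw [← neg_one_mul a, ch_mul, ch_neg_one p hp, neg_one_mul]

/-- products of the characters -/
def cp (A : Finset ℕ) (n : ℤ) : ℤ := ∏ p ∈ A, ch p n

/-- the level -/
def DD (A : Finset ℕ) : ℕ := ∏ p ∈ A, lp p

lemma cp_mul (A : Finset ℕ) (a b : ℤ) : cp A (a * b) = cp A a * cp A b := by
  unfold cp
  rw [← Finset.prod_mul_distrib]
  exact Finset.prod_congr rfl fun p _ => ch_mul p a b

lemma cp_congr (A : Finset ℕ) (D : ℕ) (h : DD A ∣ D) (a b : ℤ) (hab : (D : ℤ) ∣ a - b) :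
    cp A a = cp A b := by
  unfold cp
  apply Finset.prod_congr rfl
  intro p hp
  apply ch_congr
  refine dvd_trans ?_ hab
  exact_mod_cast (Finset.dvd_prod_of_mem lp hp).trans h

lemma cp_sq (A : Finset ℕ) (hA : ∀ p ∈ A, p.Prime) (a : ℤ) (h : ∀ p ∈ A, ¬ (p : ℤ) ∣ a) :
    cp A a ^ 2 = 1 := by
  unfold cp
  rw [← Finset.prod_pow]
  apply Finset.prod_eq_one
  intro p hp
  rcases ch_sq p (hA p hp) a (h p hp) with h1 | h1 <;> rw [h1] <;> norm_num

lemma cp_pm (A : Finset ℕ) (hA : ∀ p ∈ A, p.Prime) (a : ℤ) (h : ∀ p ∈ A, ¬ (p : ℤ) ∣ a) :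
    cp A a = 1 ∨ cp A a = -1 := by
  have h1 := cp_sq A hA a h
  have h2 : (cp A a - 1) * (cp A a + 1) = 0 := by linear_combination h1
  rcases mul_eq_zero.1 h2 with h3 | h3
  · left; linarith
  · right; linarith

lemma lp_pos {p : ℕ} (hp : p.Prime) : 0 < lp p := by
  unfold Pool.Agent.helper76.LP.lp
  split_ifs
  · norm_num
  · exact hp.pos

lemma DD_pos (A : Finset ℕ) (hA : ∀ p ∈ A, p.Prime) : 0 < DD A :=
  Finset.prod_pos fun p hp => lp_pos (hA p hp)

/-- congruence for the values -/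
lemma val_congr {D D1 : ℕ} [NeZero D] [NeZero D1] (h : D1 ∣ D) (x : ZMod D) :
    (D1 : ℤ) ∣ ((ZMod.castHom h (ZMod D1) x).val : ℤ) - (x.val : ℤ) := by
  have h1 : (ZMod.castHom h (ZMod D1) x) = ((x.val : ℕ) : ZMod D1) := by
    conv_lhs => rw [← ZMod.natCast_zmod_val x]
    rw [map_natCast]
  rw [← ZMod.intCast_zmod_eq_zero_iff_dvd]
  push_cast
  rw [ZMod.natCast_zmod_val, h1, sub_self]

lemma val_mul_congr {D : ℕ} [NeZero D] (q : ℕ) (y : ZMod D) :
    (D : ℤ) ∣ ((((q : ZMod D) * y).val : ℕ) : ℤ) - (q : ℤ) * (y.val : ℤ) := by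
  rw [← ZMod.intCast_zmod_eq_zero_iff_dvd]
  push_cast
  rw [ZMod.natCast_zmod_val, ZMod.natCast_zmod_val, sub_self]

theorem xi (A : Finset ℕ) (hA : ∀ p ∈ A, p.Prime) [NeZero (DD A)] :
    ∀ (B : Finset ℕ), (∀ p ∈ B, p.Prime) → Disjoint A B → ∀ (D : ℕ) [NeZero D],
      D = DD A * DD B →
      ∑ x : ZMod D, ((cp A (x.val : ℤ) * cp B (x.val : ℤ) ^ 2 : ℤ) : ℚ) * sw D x =
        (∏ q ∈ B, (1 - (cp A (q : ℤ) : ℚ))) *
          ∑ x : ZMod (DD A), (cp A (x.val : ℤ) : ℚ) * sw (DD A) x := by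
  intro B
  induction B using Finset.induction_on with
  | empty =>
    intro _ _ D _ hD
    have hD' : D = DD A := by rw [hD]; simp [DD]
    subst hD'
    rw [Finset.prod_empty, one_mul]
    apply Finset.sum_congr rfl
    intro x _
    simp [cp]
  | insert q B hqB ih =>
    intro hB hd D _ hD
    have hq : q.Prime := hB q (Finset.mem_insert_self q B)
    have hB' : ∀ p ∈ B, p.Prime := fun p hp => hB p (Finset.mem_insert_of_mem hp)
    have hd' : Disjoint A B := hd.mono_right (Finset.subset_insert q B)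
    have hqA : q ∉ A := fun h => (Finset.disjoint_left.1 hd h) (Finset.mem_insert_self q B)
    have hDB : DD (insert q B) = lp q * DD B := Finset.prod_insert hqB
    set D1 : ℕ := DD A * DD B with hD1
    have hD10 : 0 < D1 := Nat.mul_pos (DD_pos A hA) (DD_pos B hB')
    have : NeZero D1 := ⟨hD10.ne'⟩
    have hDD : D = lp q * D1 := by rw [hD, hDB, hD1]; ring
    obtain ⟨k, hk0, hk⟩ : ∃ k, 0 < k ∧ lp q = q ^ k := by
      unfold Pool.Agent.helper76.LP.lp
      split_ifs with h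
      · exact ⟨2, by norm_num, by rw [h]; norm_num⟩
      · exact ⟨1, by norm_num, by rw [pow_one]⟩
    have h1D : D1 ∣ D := ⟨lp q, by rw [hDD]; ring⟩
    have hAD1 : DD A ∣ D1 := ⟨DD B, rfl⟩
    have hBD1 : DD B ∣ D1 := ⟨DD A, by rw [hD1]; ring⟩
    have key := sum_unit D D1 q k hq hk0 (by rw [hDD, hk]) h1D
      (fun y => ((cp A (y.val : ℤ) * cp B (y.val : ℤ) ^ 2 : ℤ) : ℚ))
    have hL : ∑ x : ZMod D, ((cp A (x.val : ℤ) * cp (insert q B) (x.val : ℤ) ^ 2 : ℤ) : ℚ) *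
        sw D x = ∑ x : ZMod D, (if q ∣ x.val then 0 else
          ((cp A ((ZMod.castHom h1D (ZMod D1) x).val : ℤ) *
            cp B ((ZMod.castHom h1D (ZMod D1) x).val : ℤ) ^ 2 : ℤ) : ℚ)) * sw D x := by
      apply Finset.sum_congr rfl
      intro x _
      congr 1
      have hc := val_congr h1D x
      rw [cp_congr A D1 hAD1 _ _ hc, cp_congr B D1 hBD1 _ _ hc]
      have hins : cp (insert q B) (x.val : ℤ) = ch q (x.val : ℤ) * cp B (x.val : ℤ) :=
        Finset.prod_insert hqB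
      rw [hins]
      split_ifs with hqx
      · have : ch q (x.val : ℤ) = 0 := (ch_zero_iff q hq _).2 (by exact_mod_cast hqx)
        rw [this]
        push_cast
        ring
      · rcases ch_sq q hq (x.val : ℤ) (by exact_mod_cast hqx) with h1 | h1 <;> rw [h1] <;>
          push_cast <;> ring
    rw [hL, key]
    have hR : ∀ y : ZMod D1, ((cp A (y.val : ℤ) * cp B (y.val : ℤ) ^ 2 : ℤ) : ℚ) -
        ((cp A (((q : ZMod D1) * y).val : ℤ) * cp B (((q : ZMod D1) * y).val : ℤ) ^ 2 : ℤ) : ℚ) =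
        (1 - (cp A (q : ℤ) : ℚ)) * ((cp A (y.val : ℤ) * cp B (y.val : ℤ) ^ 2 : ℤ) : ℚ) := by
      intro y
      have hc := val_mul_congr (D := D1) q y
      rw [cp_congr A D1 hAD1 _ _ hc, cp_congr B D1 hBD1 _ _ hc, cp_mul, cp_mul]
      have hBq : cp B (q : ℤ) ^ 2 = 1 := by
        apply cp_sq B hB'
        intro p hp hpq
        have h3 : p ∣ q := by exact_mod_cast hpq
        have h4 := (Nat.prime_dvd_prime_iff_eq (hB' p hp) hq).1 h3
        exact hqB (h4 ▸ hp)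
      have hBq' : (cp B (q : ℤ) : ℚ) ^ 2 = 1 := by exact_mod_cast hBq
      push_cast
      linear_combination (-(cp A (q : ℤ) : ℚ) * (cp A (y.val : ℤ) : ℚ) *
        (cp B (y.val : ℤ) : ℚ) ^ 2) * hBq'
    simp_rw [hR, mul_assoc]
    rw [← Finset.mul_sum, ih hB' hd' D1 rfl, Finset.prod_insert hqB]
    ring

/-- indicator of a class -/
def wi (S : Finset ℕ) (τ : ℕ → ℤ) (n : ℤ) : ℤ := if ∀ p ∈ S, ch p n = τ p then 1 else 0

lemma wi_expand (S : Finset ℕ) (τ : ℕ → ℤ) (hτ : ∀ p, τ p = 1 ∨ τ p = -1) (n : ℤ) :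
    2 ^ S.card * wi S τ n =
      ∑ A ∈ S.powerset, (∏ p ∈ A, τ p) * (cp A n * cp (S \ A) n ^ 2) := by
  have h1 : ∏ p ∈ S, (τ p * ch p n + ch p n ^ 2) = 2 ^ S.card * wi S τ n := by
    unfold wi
    split_ifs with h
    · rw [mul_one, ← Finset.prod_const]
      apply Finset.prod_congr rfl
      intro p hp
      rw [h p hp]
      rcases hτ p with h2 | h2 <;> rw [h2] <;> norm_num
    · rw [mul_zero]
      push Not at h
      obtain ⟨p, hp, hne⟩ := h
      apply Finset.prod_eq_zero hp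
      rcases ch_vals p n with h2 | h2 | h2
      · rw [h2]; norm_num
      · rcases hτ p with h3 | h3
        · exact absurd (h2.trans h3.symm) hne
        · rw [h2, h3]; norm_num
      · rcases hτ p with h3 | h3
        · rw [h2, h3]; norm_num
        · exact absurd (h2.trans h3.symm) hne
  rw [← h1, Finset.prod_add]
  apply Finset.sum_congr rfl
  intro A _
  unfold cp
  rw [Finset.prod_mul_distrib, Finset.prod_pow, mul_assoc]

/-- the sum of the sawtooth function over a class -/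
noncomputable def Th (S : Finset ℕ) (τ : ℕ → ℤ) : ℚ :=
  if h : DD S = 0 then 0 else
    have : NeZero (DD S) := ⟨h⟩
    ∑ x : ZMod (DD S), (wi S τ (x.val : ℤ) : ℚ) * sw (DD S) x

/-- the same with the product of the characters -/
noncomputable def Bb (A : Finset ℕ) : ℚ :=
  if h : DD A = 0 then 0 else
    have : NeZero (DD A) := ⟨h⟩
    (∑ x : ZMod (DD A), (cp A (x.val : ℤ) : ℚ) * sw (DD A) x) / 2 ^ A.card

lemma Th_eq (S : Finset ℕ) (τ : ℕ → ℤ) [h : NeZero (DD S)] :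
    Th S τ = ∑ x : ZMod (DD S), (wi S τ (x.val : ℤ) : ℚ) * sw (DD S) x := by
  unfold Th
  rw [dif_neg (NeZero.ne (DD S))]

lemma Bb_eq (A : Finset ℕ) [h : NeZero (DD A)] :
    Bb A = (∑ x : ZMod (DD A), (cp A (x.val : ℤ) : ℚ) * sw (DD A) x) / 2 ^ A.card := by
  unfold Bb
  rw [dif_neg (NeZero.ne (DD A))]

/-- the coefficients -/
def ka (A S : Finset ℕ) : ℤ := ∏ q ∈ S \ A, (if cp A (q : ℤ) = -1 then 1 else 0)

lemma ka_self (S : Finset ℕ) : ka S S = 1 := by simp [ka]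

theorem Th_expand (S : Finset ℕ) (hS : ∀ p ∈ S, p.Prime) (τ : ℕ → ℤ)
    (hτ : ∀ p, τ p = 1 ∨ τ p = -1) :
    Th S τ = ∑ A ∈ S.powerset, (ka A S : ℚ) * (((∏ p ∈ A, τ p : ℤ) : ℚ) * Bb A) := by
  have hne : NeZero (DD S) := ⟨(DD_pos S hS).ne'⟩
  have h2 : (2 : ℚ) ^ S.card ≠ 0 := by positivity
  apply mul_left_cancel₀ h2
  rw [Th_eq, Finset.mul_sum]
  have h3 : ∀ x : ZMod (DD S), (2 : ℚ) ^ S.card * ((wi S τ (x.val : ℤ) : ℚ) * sw (DD S) x) =
      ∑ A ∈ S.powerset, ((∏ p ∈ A, τ p : ℤ) : ℚ) *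
        (((cp A (x.val : ℤ) * cp (S \ A) (x.val : ℤ) ^ 2 : ℤ) : ℚ) * sw (DD S) x) := by
    intro x
    have h4 := wi_expand S τ hτ (x.val : ℤ)
    have h5 : (2 : ℚ) ^ S.card * (wi S τ (x.val : ℤ) : ℚ) =
      ((∑ A ∈ S.powerset, (∏ p ∈ A, τ p) * (cp A (x.val : ℤ) *
        cp (S \ A) (x.val : ℤ) ^ 2) : ℤ) : ℚ) := by
      rw [← h4]; push_cast; ring
    rw [← mul_assoc, h5, Int.cast_sum, Finset.sum_mul]
    apply Finset.sum_congr rfl
    intro A _
    push_cast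
    ring
  simp_rw [h3]
  rw [Finset.sum_comm, Finset.mul_sum]
  apply Finset.sum_congr rfl
  intro A hA
  have hAS := Finset.mem_powerset.1 hA
  have hA' : ∀ p ∈ A, p.Prime := fun p hp => hS p (hAS hp)
  have hneA : NeZero (DD A) := ⟨(DD_pos A hA').ne'⟩
  rw [← Finset.mul_sum, xi A hA' (S \ A) (fun p hp => hS p (Finset.mem_sdiff.1 hp).1)
    Finset.disjoint_sdiff (DD S) (by
      unfold DD
      rw [mul_comm, Finset.prod_sdiff hAS]), Bb_eq]
  have h6 : (∏ q ∈ S \ A, (1 - (cp A (q : ℤ) : ℚ))) = 2 ^ (S \ A).card * (ka A S : ℚ) := by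
    unfold ka
    rw [Int.cast_prod, ← Finset.prod_const, ← Finset.prod_mul_distrib]
    apply Finset.prod_congr rfl
    intro q hq
    obtain ⟨hqS, hqA⟩ := Finset.mem_sdiff.1 hq
    have hpm := cp_pm A hA' (q : ℤ) (by
      intro p hp hpq
      have h7 : p ∣ q := by exact_mod_cast hpq
      have h8 := (Nat.prime_dvd_prime_iff_eq (hA' p hp) (hS q hqS)).1 h7
      exact hqA (h8 ▸ hp))
    rcases hpm with h9 | h9
    · rw [h9]; norm_num
    · rw [h9]; norm_num
  rw [h6]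
  have hcard : S.card = (S \ A).card + A.card := by
    rw [Finset.card_sdiff_add_card_eq_card hAS]
  rw [hcard, pow_add]
  have h2A : (2 : ℚ) ^ A.card ≠ 0 := by positivity
  field_simp

/-- oddness -/
lemma Bb_even (A : Finset ℕ) (hA : ∀ p ∈ A, T3 p) (he : Even A.card) : Bb A = 0 := by
  have hne : NeZero (DD A) := ⟨(DD_pos A fun p hp => (hA p hp).1).ne'⟩
  rw [Bb_eq]
  have h1 : ∑ x : ZMod (DD A), (cp A (x.val : ℤ) : ℚ) * sw (DD A) x =
      - ∑ x : ZMod (DD A), (cp A (x.val : ℤ) : ℚ) * sw (DD A) x := by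
    conv_lhs => rw [← Equiv.sum_comp (Equiv.neg (ZMod (DD A)))]
    rw [← Finset.sum_neg_distrib]
    apply Finset.sum_congr rfl
    intro x _
    rw [Equiv.neg_apply]
    have h2 : sw (DD A) (-x) = - sw (DD A) x := Pool.Agent.helper34.EL.saw_neg _ x
    have h3 : cp A (((-x).val : ℕ) : ℤ) = cp A (-(x.val : ℤ)) := by
      apply cp_congr A (DD A) dvd_rfl
      rw [← ZMod.intCast_zmod_eq_zero_iff_dvd]
      push_cast
      rw [ZMod.natCast_zmod_val, ZMod.natCast_zmod_val]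
      ring
    have h4 : cp A (-(x.val : ℤ)) = cp A (x.val : ℤ) := by
      unfold cp
      rw [Finset.prod_congr rfl fun p hp => ch_neg p (hA p hp) (x.val : ℤ), Finset.prod_neg,
        he.neg_one_pow, one_mul]
    rw [h2, h3, h4]
    ring
  have h5 : ∑ x : ZMod (DD A), (cp A (x.val : ℤ) : ℚ) * sw (DD A) x = 0 := by linarith
  rw [h5, zero_div]

end Pool.Agent.helper34.MD
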