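import Pool.Agent.helper34.MD.T2
import Pool.Agent.helper34.MD.PF

/-!
# A Tate function with odd parity for an even number of primes `2` (for `4`) or `3` modulo `4`
-/

set_option autoImplicit false

namespace Pool.Agent.helper34.MD

open Finset Pool.Agent.helper76.LP

/-- functions of systems of signs -/
abbrev Vv : Type := (ℕ → ℤˣ) → ℚ

/-- the function of the signs given by the class sums -/
noncomputable def vT (A : Finset ℕ) : Vv := fun τ => Th A (fun p => (τ p : ℤ))

/-- the product of the signs times the twisted sum -/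
noncomputable def vb (A : Finset ℕ) : Vv := fun τ => ((∏ p ∈ A, (τ p : ℤ) : ℤ) : ℚ) * Bb A

lemma vT_expand (S : Finset ℕ) (hS : ∀ p ∈ S, p.Prime) :
    vT S = ∑ A ∈ S.powerset, ka A S • vb A := by
  funext τ
  have h := Th_expand S hS (fun p => (τ p : ℤ)) (fun p => by
    rcases Int.units_eq_one_or (τ p) with h | h <;> rw [h] <;> simp)
  show Th S (fun p => (τ p : ℤ)) = _
  rw [h, Finset.sum_apply]
  apply Finset.sum_congr rfl
  intro A _
  rw [Pi.smul_apply, zsmul_eq_mul]
  rfl

/-- the group generated by the class sums below `A` -/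
def Kc (A : Finset ℕ) : AddSubgroup Vv := AddSubgroup.closure (Set.range fun B : A.powerset => vT B)

lemma Kc_mem {A B : Finset ℕ} (h : B ⊆ A) : vT B ∈ Kc A :=
  AddSubgroup.subset_closure ⟨⟨B, Finset.mem_powerset.2 h⟩, rfl⟩

lemma Kc_mono {A B : Finset ℕ} (h : B ⊆ A) : Kc B ≤ Kc A := by
  unfold Kc
  rw [AddSubgroup.closure_le]
  rintro _ ⟨⟨C, hC⟩, rfl⟩
  exact Kc_mem ((Finset.mem_powerset.1 hC).trans h)

theorem vb_mem (A : Finset ℕ) (hA : ∀ p ∈ A, p.Prime) : vb A ∈ Kc A := by
  induction A using Finset.strongInduction with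
  | H A ih =>
    have h := vT_expand A hA
    have hs : A.powerset = insert A A.ssubsets := by
      rw [Finset.ssubsets, Finset.insert_erase (Finset.mem_powerset_self A)]
    rw [hs, Finset.sum_insert (by simp [Finset.ssubsets]), ka_self, one_smul] at h
    have h2 : vb A = vT A - ∑ B ∈ A.ssubsets, ka B A • vb B := by rw [h]; abel
    rw [h2]
    refine AddSubgroup.sub_mem _ (Kc_mem (Finset.Subset.refl A)) (AddSubgroup.sum_mem _ ?_)
    intro B hB
    rw [Finset.mem_ssubsets] at hB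
    exact AddSubgroup.zsmul_mem _
      (Kc_mono hB.1 (ih B hB fun p hp => hA p (hB.1 hp))) _

lemma vb_even (A : Finset ℕ) (hA : ∀ p ∈ A, T3 p) (he : Even A.card) : vb A = 0 := by
  funext τ
  show ((∏ p ∈ A, (τ p : ℤ) : ℤ) : ℚ) * Bb A = 0
  rw [Bb_even A hA he, mul_zero]

/-- the group generated by the class sums properly below `A` -/
def Ks (A : Finset ℕ) : AddSubgroup Vv := AddSubgroup.closure (Set.range fun B : A.ssubsets => vT B)

theorem vT_mem (S : Finset ℕ) (hS : ∀ p ∈ S, T3 p) (he : Even S.card) : vT S ∈ Ks S := by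
  have h := vT_expand S fun p hp => (hS p hp).1
  have hs : S.powerset = insert S S.ssubsets := by
    rw [Finset.ssubsets, Finset.insert_erase (Finset.mem_powerset_self S)]
  rw [hs, Finset.sum_insert (by simp [Finset.ssubsets]), vb_even S hS he, smul_zero, zero_add] at h
  rw [h]
  refine AddSubgroup.sum_mem _ ?_
  intro B hB
  have hB' := Finset.mem_ssubsets.1 hB
  apply AddSubgroup.zsmul_mem
  have h2 := vb_mem B fun p hp => (hS p (hB'.1 hp)).1
  refine (?_ : Kc B ≤ Ks S) h2
  unfold Kc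
  rw [AddSubgroup.closure_le]
  rintro _ ⟨⟨C, hC⟩, rfl⟩
  refine AddSubgroup.subset_closure ⟨⟨C, ?_⟩, rfl⟩
  rw [Finset.mem_ssubsets]
  exact lt_of_le_of_lt (Finset.mem_powerset.1 hC) hB'

/-- the signs of a unit -/
def sgu {D : ℕ} (t : (ZMod D)ˣ) (p : ℕ) : ℤˣ := if ch p ((t : ZMod D).val : ℤ) = -1 then -1 else 1

lemma dvd_of_mem {S : Finset ℕ} {p : ℕ} (hp : p ∈ S) : lp p ∣ DD S := Finset.dvd_prod_of_mem lp hp

lemma dvd_lp (p : ℕ) : p ∣ lp p := by
  unfold Pool.Agent.helper76.LP.lp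
  split_ifs with h
  · rw [h]; norm_num
  · exact dvd_rfl

lemma unit_ndvd {D : ℕ} [NeZero D] (t : (ZMod D)ˣ) {p : ℕ} (hp : p.Prime) (h : p ∣ D) :
    ¬ (p : ℤ) ∣ ((t : ZMod D).val : ℤ) := by
  intro h1
  have h2 : p ∣ (t : ZMod D).val := by exact_mod_cast h1
  have h3 : Nat.Coprime (t : ZMod D).val D := ZMod.val_coe_unit_coprime t
  have h4 := Nat.dvd_gcd h2 h
  rw [h3] at h4
  exact hp.one_lt.ne' (Nat.dvd_one.1 h4)

lemma sgu_val {D : ℕ} [NeZero D] (t : (ZMod D)ˣ) {p : ℕ} (hp : p.Prime) (h : p ∣ D) :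
    ((sgu t p : ℤˣ) : ℤ) = ch p ((t : ZMod D).val : ℤ) := by
  unfold sgu
  rcases ch_sq p hp _ (unit_ndvd t hp h) with h1 | h1 <;> rw [h1]
  · norm_num
  · norm_num

lemma ch_val_mul {D : ℕ} [NeZero D] {p : ℕ} (h : lp p ∣ D) (x y : ZMod D) :
    ch p ((x * y).val : ℤ) = ch p (x.val : ℤ) * ch p (y.val : ℤ) := by
  rw [← ch_mul]
  apply ch_congr
  refine dvd_trans (by exact_mod_cast h : ((lp p : ℕ) : ℤ) ∣ (D : ℤ)) ?_
  rw [← ZMod.intCast_zmod_eq_zero_iff_dvd]
  push_cast
  rw [ZMod.natCast_zmod_val, ZMod.natCast_zmod_val, ZMod.natCast_zmod_val, sub_self]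

lemma sw_emb (D1 D : ℕ) [NeZero D1] [NeZero D] (h : D1 ∣ D) (y : ZMod D1) :
    sw D (emb D1 D y) = sw D1 y := by
  rw [← sw_nat D D1 h y]
  unfold emb
  congr 1
  push_cast
  ring

/-- the function attached to a proper subset -/
theorem real_gen (S : Finset ℕ) (hS : ∀ p ∈ S, p.Prime) (A : Finset ℕ) (hA : A ⊆ S)
    [NeZero (DD S)] [NeZero (DD A)] (t : (ZMod (DD S))ˣ) :
    ∑ x, (push (DD A) (DD S) (fun y => wi A (fun _ => 1) (y.val : ℤ)) x : ℚ) *
      sw (DD S) ((t : ZMod (DD S)) * x) = vT A (sgu t) := by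
  have hd : DD A ∣ DD S := Finset.prod_dvd_prod_of_subset _ _ _ hA
  have h1 : ∑ x, (push (DD A) (DD S) (fun y => wi A (fun _ => 1) (y.val : ℤ)) x : ℚ) *
      sw (DD S) ((t : ZMod (DD S)) * x) =
      ∑ x, push (DD A) (DD S) (fun y => wi A (fun _ => 1) (y.val : ℤ)) x •
        sw (DD S) ((t : ZMod (DD S)) * x) := by
    apply Finset.sum_congr rfl
    intro x _
    rw [zsmul_eq_mul]
  rw [h1, PU_sum (DD A) (DD S) _ (fun x => sw (DD S) ((t : ZMod (DD S)) * x))]
  set t' : (ZMod (DD A))ˣ := ZMod.unitsMap hd t with ht'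
  have h2 : ∀ y : ZMod (DD A), sw (DD S) ((t : ZMod (DD S)) * emb (DD A) (DD S) y) =
      sw (DD A) ((t' : ZMod (DD A)) * y) := by
    intro y
    rw [mul_emb hd, sw_emb (DD A) (DD S) hd]
    rfl
  simp_rw [h2]
  show _ = Th A (fun p => ((sgu t p : ℤˣ) : ℤ))
  rw [Th_eq]
  conv_rhs => rw [← Equiv.sum_comp (Units.mulLeft t')]
  apply Finset.sum_congr rfl
  intro y _
  rw [zsmul_eq_mul]
  show _ = (wi A _ (((t' : ZMod (DD A)) * y).val : ℤ) : ℚ) * sw (DD A) ((t' : ZMod (DD A)) * y)
  congr 2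
  unfold wi
  have h3 : ∀ p ∈ A, (ch p (y.val : ℤ) = 1 ↔
      ch p ((((t' : ZMod (DD A)) * y).val : ℕ) : ℤ) = ((sgu t p : ℤˣ) : ℤ)) := by
    intro p hp
    have hpp := hS p (hA hp)
    have hpA : lp p ∣ DD A := dvd_of_mem hp
    have hpS : p ∣ DD S := (dvd_lp p).trans (dvd_of_mem (hA hp))
    rw [sgu_val t hpp hpS, ch_val_mul hpA]
    have h4 : ch p (((t' : ZMod (DD A)).val : ℕ) : ℤ) = ch p ((t : ZMod (DD S)).val : ℤ) := by
      apply ch_congr
      refine dvd_trans (by exact_mod_cast hpA : ((lp p : ℕ) : ℤ) ∣ (DD A : ℤ)) ?_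
      exact val_congr hd (t : ZMod (DD S))
    rw [h4]
    rcases ch_sq p hpp _ (unit_ndvd t hpp hpS) with h5 | h5 <;> rw [h5]
    · rw [one_mul]
    · rw [neg_one_mul, neg_inj]
  by_cases h6 : ∀ p ∈ A, ch p (y.val : ℤ) = 1
  · rw [if_pos h6, if_pos fun p hp => (h3 p hp).1 (h6 p hp)]
  · rw [if_neg h6, if_neg fun h7 => h6 fun p hp => (h3 p hp).2 (h7 p hp)]

/-- the class sum is realised by a function vanishing at the units -/
theorem real_ks (S : Finset ℕ) (hS : ∀ p ∈ S, p.Prime) [NeZero (DD S)] (v : Vv) (hv : v ∈ Ks S) :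
    ∃ e : ZMod (DD S) → ℤ, (∀ u : (ZMod (DD S))ˣ, e (u : ZMod (DD S)) = 0) ∧
      ∀ t : (ZMod (DD S))ˣ, ∑ x, (e x : ℚ) * sw (DD S) ((t : ZMod (DD S)) * x) = v (sgu t) := by
  unfold Ks at hv
  induction hv using AddSubgroup.closure_induction with
  | mem x hx =>
    obtain ⟨⟨A, hA⟩, rfl⟩ := hx
    rw [Finset.mem_ssubsets] at hA
    have hAp : ∀ p ∈ A, p.Prime := fun p hp => hS p (hA.1 hp)
    have hneA : NeZero (DD A) := ⟨(DD_pos A hAp).ne'⟩
    have hd : DD A ∣ DD S := Finset.prod_dvd_prod_of_subset _ _ _ hA.1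
    refine ⟨push (DD A) (DD S) (fun y => wi A (fun _ => 1) (y.val : ℤ)), ?_,
      fun t => real_gen S hS A hA.1 t⟩
    intro u
    by_contra h
    have h1 := push_order (DD A) (DD S) hd _ _ h
    have h2 : addOrderOf (u : ZMod (DD S)) = DD S := by
      have h3 := addOrderOf_emb (dvd_refl (DD S)) u
      have h4 : emb (DD S) (DD S) (u : ZMod (DD S)) = (u : ZMod (DD S)) := by
        unfold emb
        rw [Nat.div_self (DD_pos S hS), mul_one, ZMod.natCast_zmod_val]
      rwa [h4] at h3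
    rw [h2] at h1
    obtain ⟨p, hp, hpA⟩ := Finset.exists_of_ssubset hA
    have h5 : lp p * DD A ∣ DD S := by
      have h6 : DD (insert p A) = lp p * DD A := Finset.prod_insert hpA
      rw [← h6]
      exact Finset.prod_dvd_prod_of_subset _ _ _ (Finset.insert_subset hp hA.1)
    have h6 := Nat.le_of_dvd (DD_pos A hAp) h1
    have h7 := Nat.le_of_dvd (DD_pos S hS) h5
    have h8 : 2 ≤ lp p := by
      have := (hS p hp).two_le
      have := Nat.le_of_dvd (lp_pos (hS p hp)) (dvd_lp p)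
      omega
    have h9 := DD_pos A hAp
    nlinarith
  | zero =>
    exact ⟨fun _ => 0, fun _ => rfl, fun t => by simp⟩
  | add x y _ _ hx hy =>
    obtain ⟨e, h1, h2⟩ := hx
    obtain ⟨e', h1', h2'⟩ := hy
    refine ⟨fun z => e z + e' z, fun u => by simp only [h1, h1', add_zero], fun t => ?_⟩
    rw [Pi.add_apply, ← h2 t, ← h2' t, ← Finset.sum_add_distrib]
    apply Finset.sum_congr rfl
    intro z _
    push_cast
    ring
  | neg x _ hx =>
    obtain ⟨e, h1, h2⟩ := hx
    refine ⟨fun z => - e z, fun u => by simp only [h1, neg_zero], fun t => ?_⟩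
    rw [Pi.neg_apply, ← h2 t, ← Finset.sum_neg_distrib]
    apply Finset.sum_congr rfl
    intro z _
    push_cast
    ring

lemma sw_saw (D : ℕ) [NeZero D] (x : ZMod D) :
    ((Pool.Agent.helper76.LP.saw D x : ℤ) : ℚ) = 2 * D * sw D x := by
  have hD : (D : ℚ) ≠ 0 := Nat.cast_ne_zero.2 (NeZero.ne D)
  unfold Pool.Agent.helper76.LP.saw sw Pool.Agent.helper34.EL.saw
  split_ifs
  · simp
  · push_cast
    field_simp

/-- the Tate condition from the sums with the sawtooth function -/
lemma tateF_of_sw {D : ℕ} [NeZero D] (e : ZMod D → ℤ)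
    (h : ∀ t : (ZMod D)ˣ, ∑ x, (e x : ℚ) * sw D ((t : ZMod D) * x) = 0) : TateF (anti e) := by
  intro t
  have h1 : ((∑ x, anti e x * Pool.Agent.helper76.LP.saw D ((t : ZMod D) * x) : ℤ) : ℚ) = 0 := by
    have h2 : ((∑ x, anti e x * Pool.Agent.helper76.LP.saw D ((t : ZMod D) * x) : ℤ) : ℚ) =
        2 * D * (∑ x, (e x : ℚ) * sw D ((t : ZMod D) * x) -
          ∑ x, (e (-x) : ℚ) * sw D ((t : ZMod D) * x)) := by
      push_cast
      rw [← Finset.sum_sub_distrib, Finset.mul_sum]
      apply Finset.sum_congr rfl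
      intro x _
      rw [sw_saw]
      unfold anti
      push_cast
      ring
    have h3 : ∑ x, (e (-x) : ℚ) * sw D ((t : ZMod D) * x) =
        - ∑ x, (e x : ℚ) * sw D ((t : ZMod D) * x) := by
      conv_lhs => rw [← Equiv.sum_comp (Equiv.neg (ZMod D))]
      rw [← Finset.sum_neg_distrib]
      apply Finset.sum_congr rfl
      intro x _
      rw [Equiv.neg_apply, neg_neg, mul_neg]
      have h4 : sw D (-((t : ZMod D) * x)) = - sw D ((t : ZMod D) * x) :=
        Pool.Agent.helper34.EL.saw_neg _ _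
      rw [h4]
      ring
    rw [h2, h3, h t]
    ring
  exact_mod_cast h1

/-- the Tate function -/
theorem tate_fun (S : Finset ℕ) (hS : ∀ p ∈ S, T3 p) (he : Even S.card) [NeZero (DD S)] :
    ∃ e : ZMod (DD S) → ℤ, TateF (anti e) ∧ ∀ u : (ZMod (DD S))ˣ, e (u : ZMod (DD S)) =
      wi S (fun _ => 1) ((u : ZMod (DD S)).val : ℤ) := by
  have hSp : ∀ p ∈ S, p.Prime := fun p hp => (hS p hp).1
  obtain ⟨e, h1, h2⟩ := real_ks S hSp (vT S) (vT_mem S hS he)
  refine ⟨fun x => wi S (fun _ => 1) (x.val : ℤ) - e x, ?_, ?_⟩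
  · apply tateF_of_sw
    intro t
    have h3 := real_gen S hSp S (Finset.Subset.refl S) t
    have h4 : ∀ x : ZMod (DD S), push (DD S) (DD S) (fun y => wi S (fun _ => 1) (y.val : ℤ)) x =
        wi S (fun _ => 1) (x.val : ℤ) := by
      intro x
      have h5 : emb (DD S) (DD S) x = x := by
        unfold emb
        rw [Nat.div_self (DD_pos S hSp), mul_one, ZMod.natCast_zmod_val]
      have h6 := push_emb (DD S) (DD S) dvd_rfl (fun y => wi S (fun _ => 1) (y.val : ℤ)) x
      rwa [h5] at h6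
    simp_rw [h4] at h3
    have h5 := h2 t
    have h6 : ∑ x, (((wi S (fun _ => 1) (x.val : ℤ) - e x : ℤ)) : ℚ) *
        sw (DD S) ((t : ZMod (DD S)) * x) =
        ∑ x, (wi S (fun _ => 1) (x.val : ℤ) : ℚ) * sw (DD S) ((t : ZMod (DD S)) * x) -
          ∑ x, (e x : ℚ) * sw (DD S) ((t : ZMod (DD S)) * x) := by
      rw [← Finset.sum_sub_distrib]
      apply Finset.sum_congr rfl
      intro x _
      push_cast
      ring
    rw [h6, h3, h5, sub_self]
  · intro u
    simp only [h1, sub_zero]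

/-- the parity -/
theorem ps_wi {D : ℕ} [NeZero D] (ν : ℕ → (ZMod D)ˣ) (i : ℕ) (σ : ℤ) (hσ : σ = 1 ∨ σ = -1) :
    ∀ (L : List ℕ), (i :: L).Nodup → (∀ p ∈ i :: L, p.Prime ∧ lp p ∣ D) →
      (∀ j ∈ L, ∀ p ∈ i :: L, ch p ((ν j : ZMod D).val : ℤ) = if p = j then -1 else 1) →
      PS ν L (fun z => wi (i :: L).toFinset (fun _ => σ) ((z : ZMod D).val : ℤ)) =
        if σ = 1 then 1 else 0 := by
  intro L
  induction L with
  | nil =>
    intro _ hp _
    obtain ⟨h1, h2⟩ := hp i List.mem_cons_self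
    show wi [i].toFinset (fun _ => σ) (((1 : (ZMod D)ˣ) : ZMod D).val : ℤ) = _
    have h3 : ch i (((1 : (ZMod D)ˣ) : ZMod D).val : ℤ) = 1 := by
      have h4 := ch_val_mul h2 (((1 : (ZMod D)ˣ) : ZMod D)) (((1 : (ZMod D)ˣ) : ZMod D))
      rw [Units.val_one, one_mul] at h4
      rw [Units.val_one]
      have h5 := unit_ndvd (1 : (ZMod D)ˣ) h1 ((dvd_lp i).trans h2)
      rw [Units.val_one] at h5
      rcases ch_sq i h1 _ h5 with h6 | h6
      · exact h6
      · rw [h6] at h4; norm_num at h4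
    unfold wi
    simp only [List.toFinset_cons, List.toFinset_nil, insert_empty_eq, Finset.mem_singleton,
      forall_eq, h3]
    rcases hσ with h | h <;> rw [h] <;> norm_num
  | cons j L ih =>
    intro hn hp hν
    rw [List.nodup_cons, List.nodup_cons] at hn
    obtain ⟨hi, hj, hnL⟩ := hn
    have hij : i ≠ j := fun h => hi (h ▸ List.mem_cons_self)
    have hiL : i ∉ L := fun h => hi (List.mem_cons_of_mem _ h)
    have ih' := ih (List.nodup_cons.2 ⟨hiL, hnL⟩)
      (fun p hp' => hp p (by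
        rcases List.mem_cons.1 hp' with h | h
        · rw [h]; exact List.mem_cons_self
        · exact List.mem_cons_of_mem _ (List.mem_cons_of_mem _ h)))
      (fun k hk p hp' => hν k (List.mem_cons_of_mem _ hk) p (by
        rcases List.mem_cons.1 hp' with h | h
        · rw [h]; exact List.mem_cons_self
        · exact List.mem_cons_of_mem _ (List.mem_cons_of_mem _ h)))
    rw [← ih']
    show PS ν L (fun z => wi (i :: j :: L).toFinset (fun _ => σ) ((z : ZMod D).val : ℤ) +
      wi (i :: j :: L).toFinset (fun _ => σ) (((ν j * z : (ZMod D)ˣ) : ZMod D).val : ℤ)) = _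
    congr 1
    funext z
    have hmul : ∀ p ∈ i :: j :: L, ch p (((ν j * z : (ZMod D)ˣ) : ZMod D).val : ℤ) =
        (if p = j then -1 else 1) * ch p ((z : ZMod D).val : ℤ) := by
      intro p hp'
      rw [Units.val_mul, ch_val_mul (hp p hp').2, hν j List.mem_cons_self p hp']
    have hjm : j ∈ i :: j :: L := List.mem_cons_of_mem _ List.mem_cons_self
    have hpm := ch_sq j (hp j hjm).1 _ (unit_ndvd z (hp j hjm).1 ((dvd_lp j).trans (hp j hjm).2))
    have hjz := hmul j hjm
    rw [if_pos rfl, neg_one_mul] at hjz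
    have h1 : (∀ p ∈ (i :: j :: L).toFinset, ch p ((z : ZMod D).val : ℤ) = σ) ↔
        (∀ p ∈ (i :: L).toFinset, ch p ((z : ZMod D).val : ℤ) = σ) ∧
          ch j ((z : ZMod D).val : ℤ) = σ := by
      simp only [List.mem_toFinset, List.mem_cons]
      constructor
      · intro h
        exact ⟨fun p hp => h p (by tauto), h j (by tauto)⟩
      · rintro ⟨h, h'⟩ p (rfl | rfl | hp)
        · exact h p (Or.inl rfl)
        · exact h'
        · exact h p (Or.inr hp)
    have h2 : (∀ p ∈ (i :: j :: L).toFinset,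
          ch p (((ν j * z : (ZMod D)ˣ) : ZMod D).val : ℤ) = σ) ↔
        (∀ p ∈ (i :: L).toFinset, ch p ((z : ZMod D).val : ℤ) = σ) ∧
          ch j ((z : ZMod D).val : ℤ) = -σ := by
      simp only [List.mem_toFinset]
      constructor
      · intro h
        refine ⟨fun p hp' => ?_, ?_⟩
        · have hp'' : p ∈ i :: j :: L := by
            rcases List.mem_cons.1 hp' with h | h
            · rw [h]; exact List.mem_cons_self
            · exact List.mem_cons_of_mem _ (List.mem_cons_of_mem _ h)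
          have hpj : p ≠ j := by
            rintro rfl
            rcases List.mem_cons.1 hp' with h | h
            · exact hij h.symm
            · exact hj h
          have h3 := hmul p hp''
          rw [if_neg hpj, one_mul] at h3
          rw [← h3]
          exact h p hp''
        · have h4 := h j hjm
          rw [hjz] at h4
          rw [← h4, neg_neg]
      · rintro ⟨h, h'⟩ p hp'
        by_cases hpj : p = j
        · rw [hpj, hjz, h', neg_neg]
        · have h3 := hmul p hp'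
          rw [if_neg hpj, one_mul] at h3
          rw [h3]
          apply h p
          rcases List.mem_cons.1 hp' with h | h
          · rw [h]; exact List.mem_cons_self
          · rcases List.mem_cons.1 h with h | h
            · exact absurd h hpj
            · exact List.mem_cons_of_mem _ h
    unfold wi
    simp only [h1, h2]
    by_cases h5 : ∀ p ∈ (i :: L).toFinset, ch p ((z : ZMod D).val : ℤ) = σ
    · rw [if_pos h5]
      have h8 : (ch j ((z : ZMod D).val : ℤ) = σ ∧ ¬ ch j ((z : ZMod D).val : ℤ) = -σ) ∨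
          (¬ ch j ((z : ZMod D).val : ℤ) = σ ∧ ch j ((z : ZMod D).val : ℤ) = -σ) := by
        rcases hpm with h6 | h6 <;> rcases hσ with h7 | h7 <;> rw [h6, h7] <;> norm_num
      rcases h8 with ⟨a, b⟩ | ⟨a, b⟩
      · rw [if_pos ⟨h5, a⟩, if_neg (fun h => b h.2), add_zero]
      · rw [if_neg (fun h => a h.2), if_pos ⟨h5, b⟩, zero_add]
    · rw [if_neg h5, if_neg (fun h => h5 h.1), if_neg (fun h => h5 h.1), add_zero]

lemma ch_one (p : ℕ) : ch p 1 = 1 := by
  unfold ch
  split_ifs
  · decide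
  · exact jacobiSym.one_left p

lemma val_neg_congr {D : ℕ} [NeZero D] (x : ZMod D) :
    (D : ℤ) ∣ (((-x).val : ℕ) : ℤ) - (-(x.val : ℤ)) := by
  rw [← ZMod.intCast_zmod_eq_zero_iff_dvd]
  push_cast
  rw [ZMod.natCast_zmod_val, ZMod.natCast_zmod_val]
  ring

lemma ch_val_neg {D : ℕ} [NeZero D] {p : ℕ} (hp : T3 p) (h : lp p ∣ D) (x : ZMod D) :
    ch p ((-x).val : ℤ) = - ch p (x.val : ℤ) := by
  rw [← ch_neg p hp]
  exact ch_congr p _ _ (dvd_trans (by exact_mod_cast h) (val_neg_congr x))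

/-- existence of a Tate function with odd parity -/
theorem tate_odd (D : ℕ) [NeZero D] (hD : D % 4 ≠ 2)
    (h : (∀ p, p.Prime → Odd p → ¬ p ^ 2 ∣ D) ∧ ¬ 8 ∣ D) (h3 : ∀ p ∈ D.primeFactors, T3 p)
    (he : Even D.primeFactors.card) (i : ℕ) (L : List ℕ) (hnd : (i :: L).Nodup)
    (hL : (i :: L).toFinset = D.primeFactors) (ν : ℕ → (ZMod D)ˣ) (hν : ∀ p, ν p ∈ Gam D p)
    (hprod : ((i :: L).map ν).prod = -1) :
    ∃ e : ZMod D → ℤ, TateF (anti e) ∧ Odd (PS ν L (fun z => anti e (z : ZMod D))) := by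
  have hDD : DD D.primeFactors = D := (eq_prod_lam D hD h).1.symm
  have hmem : ∀ p ∈ i :: L, p ∈ D.primeFactors := fun p hp => by
    rw [← hL, List.mem_toFinset]; exact hp
  have hlp : ∀ p ∈ D.primeFactors, lp p ∣ D := fun p hp => by
    conv_rhs => rw [← hDD]
    exact dvd_of_mem hp
  -- values of the characters
  have hv1 : ∀ j ∈ D.primeFactors, ∀ p ∈ D.primeFactors, p ≠ j →
      ch p ((ν j : ZMod D).val : ℤ) = 1 := by
    intro j hj p hp hpj
    have hjp := Nat.prime_of_mem_primeFactors hj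
    have hjD := Nat.dvd_of_mem_primeFactors hj
    have hg := hν j
    unfold Gam at hg
    rw [dif_pos hjD, MonoidHom.mem_ker] at hg
    have hdv : lp p ∣ D / j := by
      apply Nat.dvd_div_of_mul_dvd
      have h5 : lp p * lp j ∣ D := by
        conv_rhs => rw [← hDD]
        have h6 : DD {p, j} = lp p * lp j := Finset.prod_pair hpj
        rw [← h6]
        refine Finset.prod_dvd_prod_of_subset _ _ _ ?_
        intro x hx
        rw [Finset.mem_insert, Finset.mem_singleton] at hx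
        rcases hx with rfl | rfl
        · exact hp
        · exact hj
      refine dvd_trans ?_ h5
      rw [mul_comm j]
      exact Nat.mul_dvd_mul_left _ (dvd_lp j)
    have hne : NeZero (D / j) := ⟨(Nat.div_pos (Nat.le_of_dvd (Nat.pos_of_ne_zero (NeZero.ne D))
      hjD) hjp.pos).ne'⟩
    have h4 : ch p ((ν j : ZMod D).val : ℤ) = ch p 1 := by
      apply ch_congr
      refine dvd_trans (by exact_mod_cast hdv : ((lp p : ℕ) : ℤ) ∣ ((D / j : ℕ) : ℤ)) ?_
      rw [← ZMod.intCast_zmod_eq_zero_iff_dvd]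
      have h5 := congrArg (fun u : (ZMod (D / j))ˣ => (u : ZMod (D / j))) hg
      simp only [ZMod.unitsMap_val, Units.val_one] at h5
      push_cast
      rw [sub_eq_zero]
      have h6 : (((ν j : ZMod D).val : ℕ) : ZMod (D / j)) =
          ZMod.cast (ν j : ZMod D) := by
        rw [ZMod.natCast_val]
      exact h6.trans h5
    rw [h4, ch_one]
  have hpm : ∀ p ∈ D.primeFactors, ∀ M : List ℕ, ch p (((M.map ν).prod : (ZMod D)ˣ) : ZMod D).val =
      (M.map fun j => ch p ((ν j : ZMod D).val : ℤ)).prod := by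
    intro p hp M
    induction M with
    | nil =>
      have h4 := ch_val_mul (hlp p hp) (((1 : (ZMod D)ˣ) : ZMod D)) (((1 : (ZMod D)ˣ) : ZMod D))
      have h5 := unit_ndvd (1 : (ZMod D)ˣ) (h3 p hp).1 (Nat.dvd_of_mem_primeFactors hp)
      rw [List.map_nil, List.prod_nil, List.map_nil, List.prod_nil]
      rw [Units.val_one, one_mul] at h4
      rw [Units.val_one] at h5 ⊢
      rcases ch_sq p (h3 p hp).1 _ h5 with h6 | h6
      · exact h6
      · rw [h6] at h4; norm_num at h4
    | cons k M ih =>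
      rw [List.map_cons, List.prod_cons, List.map_cons, List.prod_cons, Units.val_mul,
        ch_val_mul (hlp p hp), ih]
  have hv2 : ∀ j ∈ i :: L, ch j ((ν j : ZMod D).val : ℤ) = -1 := by
    intro j hj
    have hjm := hmem j hj
    have h4 := hpm j hjm (i :: L)
    rw [hprod, Units.val_neg, ch_val_neg (h3 j hjm) (hlp j hjm)] at h4
    have h5 := hpm j hjm []
    rw [List.map_nil, List.prod_nil, List.map_nil, List.prod_nil] at h5
    rw [h5] at h4
    rw [h4]
    rw [← List.prod_map_erase (fun k => ch j ((ν k : ZMod D).val : ℤ)) hj]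
    have h6 : (((i :: L).erase j).map fun k => ch j ((ν k : ZMod D).val : ℤ)).prod = 1 := by
      apply List.prod_eq_one
      intro x hx
      obtain ⟨k, hk, rfl⟩ := List.mem_map.1 hx
      have hkL : k ∈ i :: L := List.mem_of_mem_erase hk
      have hkj : j ≠ k := by
        rintro rfl
        exact (List.Nodup.not_mem_erase hnd) hk
      exact hv1 k (hmem k hkL) j hjm hkj
    rw [h6, mul_one]
  have hval : ∀ j ∈ L, ∀ p ∈ i :: L, ch p ((ν j : ZMod D).val : ℤ) = if p = j then -1 else 1 := by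
    intro j hj p hp
    have hj' : j ∈ i :: L := List.mem_cons_of_mem _ hj
    split_ifs with hpj
    · rw [hpj]; exact hv2 j hj'
    · exact hv1 j (hmem j hj') p (hmem p hp) hpj
  -- the Tate function
  have key : ∃ e : ZMod D → ℤ, TateF (anti e) ∧ ∀ u : (ZMod D)ˣ, e (u : ZMod D) =
      wi D.primeFactors (fun _ => 1) ((u : ZMod D).val : ℤ) := by
    have aux : ∀ (S : Finset ℕ) (E : ℕ) [NeZero E], DD S = E → (∀ p ∈ S, T3 p) → Even S.card →
        ∃ e : ZMod E → ℤ, TateF (anti e) ∧ ∀ u : (ZMod E)ˣ, e (u : ZMod E) =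
          wi S (fun _ => 1) ((u : ZMod E).val : ℤ) := by
      intro S E _ hE hS1 hS2
      subst hE
      exact tate_fun S hS1 hS2
    exact aux D.primeFactors D hDD h3 he
  obtain ⟨e, he1, he2⟩ := key
  refine ⟨e, he1, ?_⟩
  have h7 : (fun z : (ZMod D)ˣ => anti e (z : ZMod D)) = fun z : (ZMod D)ˣ =>
      wi (i :: L).toFinset (fun _ => 1) ((z : ZMod D).val : ℤ) +
        (-1) * wi (i :: L).toFinset (fun _ => -1) ((z : ZMod D).val : ℤ) := by
    funext z
    unfold anti
    rw [he2 z]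
    have h8 := he2 (-z)
    rw [Units.val_neg] at h8
    rw [h8, hL]
    have h9 : wi D.primeFactors (fun _ => 1) ((-(z : ZMod D)).val : ℤ) =
        wi D.primeFactors (fun _ => -1) ((z : ZMod D).val : ℤ) := by
      unfold wi
      have h10 : (∀ p ∈ D.primeFactors, ch p ((-(z : ZMod D)).val : ℤ) = 1) ↔
          ∀ p ∈ D.primeFactors, ch p ((z : ZMod D).val : ℤ) = -1 := by
        apply forall₂_congr
        intro p hp
        rw [ch_val_neg (h3 p hp) (hlp p hp)]
        constructor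
        · intro h; rw [← h, neg_neg]
        · intro h; rw [h, neg_neg]
      simp only [h10]
    rw [h9]
    ring
  have hpr : ∀ p ∈ i :: L, p.Prime ∧ lp p ∣ D := fun p hp => ⟨(h3 p (hmem p hp)).1,
    hlp p (hmem p hp)⟩
  rw [h7, PS_add, PS_mul ν L (-1) (fun z =>
    wi (i :: L).toFinset (fun _ => -1) ((z : ZMod D).val : ℤ)),
    ps_wi ν i 1 (Or.inl rfl) L hnd hpr hval, ps_wi ν i (-1) (Or.inr rfl) L hnd hpr hval]
  norm_num

end Pool.Agent.helper34.MD
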