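import Pool.Agent.helper34.MD.T3
import Pool.Agent.helper76.UR.Ind

/-!
# Removal of the obstruction for an even number of primes `2` (for `4`) or `3` modulo `4`
-/

set_option autoImplicit false

namespace Pool.Agent.helper34.MD

open Finset Pool.Agent.helper76.LP Pool.Agent.helper34.DH

/-- any subgroup containing the Tate classes of level `D` -/
theorem fixE_three (E : AddSubgroup Qt) (D : ℕ) [NeZero D] (hD : D % 4 ≠ 2)
    (h : (∀ p, p.Prime → Odd p → ¬ p ^ 2 ∣ D) ∧ ¬ 8 ∣ D)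
    (h3 : ∀ p ∈ D.primeFactors, p = 2 ∨ p % 4 = 3)
    (he : Even D.primeFactors.card) (h0 : D.primeFactors.card ≠ 0)
    (hE : ∀ e : ZMod D → ℤ, TateF (anti e) → Pool.Agent.helper76.LP.cls D e ∈ E) :
    Pool.Agent.helper88.EF.FixE E D := by
  set L := D.primeFactors.toList with hLdef
  have hLn : L.Nodup := Finset.nodup_toList _
  have hLt : L.toFinset = D.primeFactors := Finset.toList_toFinset _
  have hlen : L.length = D.primeFactors.card := Finset.length_toList _
  obtain ⟨htop, ν, hν, hν2, hν1, hprod⟩ := nu_exists' D hD h L hLn hLt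
  clear_value L
  match L, hlen, hLn, hLt, htop, hν1, hprod with
  | [], hlen, _, _, _, _, _ => exact absurd hlen.symm h0
  | [p], hlen, _, _, _, _, _ =>
    rw [List.length_singleton] at hlen
    rw [← hlen] at he
    exact absurd he (by decide)
  | i :: k :: M, hlen, hLn, hLt, htop, hν1, hprod =>
    obtain ⟨e, he1, he2⟩ := tate_odd D hD h
      (fun p hp => ⟨Nat.prime_of_mem_primeFactors hp, h3 p hp⟩) he i (k :: M) hLn hLt ν hν hprod
    exact fix_of_par E D i (k :: M) (by simp) hLn hLt htop ν hν hν2 hν1 hprod e he1 (hE e he1) he2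

/-- the same for the group attached to a property -/
theorem fixP_three (P : Multiset QZ → Prop) (D : ℕ) [NeZero D] (hD : D % 4 ≠ 2)
    (h : (∀ p, p.Prime → Odd p → ¬ p ^ 2 ∣ D) ∧ ¬ 8 ∣ D)
    (h3 : ∀ p ∈ D.primeFactors, p = 2 ∨ p % 4 = 3)
    (he : Even D.primeFactors.card) (h0 : D.primeFactors.card ≠ 0)
    (hE : ∀ e : ZMod D → ℤ, TateF (anti e) →
      Pool.Agent.helper76.LP.cls D e ∈ Pool.Agent.helper76.UR.EP P) :
    Pool.Agent.helper76.UR.FixP P D :=
  fixE_three (Pool.Agent.helper76.UR.EP P) D hD h h3 he h0 hE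

/-- removal from an explicit Tate function -/
theorem fixP_of_par (P : Multiset QZ → Prop) (D : ℕ) [NeZero D] (i : ℕ) (L : List ℕ)
    (hL0 : L ≠ []) (hnd : (i :: L).Nodup)
    (hL : (i :: L).toFinset = D.primeFactors) (htop : Pl (Gam D) (i :: L) = ⊤)
    (ν : ℕ → (ZMod D)ˣ) (hν : ∀ p, ν p ∈ Gam D p) (hν2 : ∀ p, ν p * ν p = 1)
    (hν1 : ∀ p ∈ i :: L, ν p ≠ 1) (hprod : ((i :: L).map ν).prod = -1)
    (e : ZMod D → ℤ) (he1 : TateF (anti e))
    (he2 : Pool.Agent.helper76.LP.cls D e ∈ Pool.Agent.helper76.UR.EP P)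
    (he3 : Odd (PS ν L (fun z => anti e (z : ZMod D)))) :
    Pool.Agent.helper76.UR.FixP P D :=
  fix_of_par (Pool.Agent.helper76.UR.EP P) D i L hL0 hnd hL htop ν hν hν2 hν1 hprod e he1 he2 he3

end Pool.Agent.helper34.MD
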